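import Mathlib

/-!
MP_7470a2_gt, Q1 (helper32): the definitions used by the final statement.
-/

set_option autoImplicit false

namespace Pool.Agent.T6.H32.LS

/-- The Hirzebruch-Jung continued fraction `[b₁, …, b_s] = b₁ - 1/(b₂ - 1/(… - 1/b_s))`. -/
def cf : List ℤ → ℚ
  | [] => 0
  | b :: l => b - (cf l)⁻¹

/-- `k` is an admissible tuple with `[k₁, …, k_s] = 0`: all the denominators in the continued
fraction are positive. -/
def IsZero (k : List ℤ) : Prop :=
  k ≠ [] ∧ cf k = 0 ∧ ∀ l₁ l₂ : List ℤ, k = l₁ ++ l₂ → l₁ ≠ [] → l₂ ≠ [] → 0 < cf l₂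

/-- `b = (b₁, …, b_s)`, all `b_i ≥ 2`, is the expansion `n / (n - a) = [b₁, …, b_s]`. -/
def IsChain (n a : ℤ) (b : List ℤ) : Prop :=
  (∀ x ∈ b, 2 ≤ x) ∧ cf b = (n : ℚ) / ((n : ℚ) - (a : ℚ))

/-- `k` is one of Lisca's tuples of the lens space `L(n, a)`, i.e. `k` is an admissible tuple with
`[k₁, …, k_s] = 0` and `k_i ≤ b_i`, and the corresponding symplectic filling `W(k)` has second
Betti number `∑ (b_i - k_i) - 1 = 1`. -/
def Filling (n a : ℤ) (k : List ℤ) : Prop :=
  IsZero k ∧ ∃ b, IsChain n a b ∧ List.Forall₂ (· ≤ ·) k b ∧ b.sum = k.sum + 2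

/-- The fillings `W(k)` and `W(k')` are equivalent: `k = k'`, or `a² ≡ 1 (mod n)` and `k'` is
the reversed tuple of `k`. -/
def Same (n a : ℤ) (k k' : List ℤ) : Prop :=
  k = k' ∨ (n ∣ a ^ 2 - 1 ∧ k' = k.reverse)

/-- `L(n, a)` has exactly two inequivalent fillings with second Betti number one. -/
def ExactlyTwo (n a : ℤ) : Prop :=
  ∃ k k', Filling n a k ∧ Filling n a k' ∧ ¬ Same n a k k' ∧
    ∀ k'', Filling n a k'' → Same n a k k'' ∨ Same n a k' k''

/-- The triples `(r, s, c)` generated from the triples `(0, t, t)`, `t ≥ 1`, by three moves. -/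
inductive Node : ℤ → ℤ → ℤ → Prop
  | base (t : ℤ) : 0 < t → Node 0 t t
  | swap (r s c : ℤ) : Node r s c → Node s r c
  | left (r s c : ℤ) : Node r s c → s < r * c → Node r (r * c - s) c
  | up (r s c : ℤ) : Node r s c → Node r (s + r * (c + r * s)) (c + r * s)

/-- The explicit parameters: a triple `(r, s, c)` of the trees, with `r, s > 0`, `d = c + r s`, a
residue `p` modulo `d` with three coprimality conditions, and a primitive vector `(x, y)` of `ℤ²`
in an open cone, with `x w + y z = 1`. -/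
def Param (n a : ℤ) : Prop :=
  ∃ r s c p q t x y z w d e : ℤ, Node r s c ∧ 0 < r ∧ 0 < s ∧ d = c + r * s ∧
    0 < p ∧ p < d ∧ IsCoprime p d ∧ r * p - s = d * q ∧ s * p + r = d * t ∧
    IsCoprime q r ∧ IsCoprime t s ∧
    0 < y ∧ 0 < r * x + q * y ∧ x * w + y * z = 1 ∧ e = d * x + p * y ∧
    n = y ^ 2 + d * y * e + e ^ 2 ∧
    n ∣ a + 1 + e * (d * z - p * w) - (y + d * e) * w ∧
    ¬ (r * e = (d + s) * y ∧ n ∣ a ^ 2 - 1)

end Pool.Agent.T6.H32.LS
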