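import Mathlib
import Pool.Agent.T6.H32.LS.Problem

/-!
MP_7470a2_gt, Q1 (helper32): vectors, and the statements of the modules.
-/

set_option autoImplicit false

namespace Pool.Agent.T6.H32.LS

/-- the determinant -/
def br (x y : ℤ × ℤ) : ℤ := x.1 * y.2 - x.2 * y.1

/-- the transvection `x ↦ x + [u, x] u` -/
def T (u x : ℤ × ℤ) : ℤ × ℤ := (x.1 + br u x * u.1, x.2 + br u x * u.2)

/-- From `(w₀, w₁)` to `(w_s, w_(s+1))`, where `w_(i+1) = k_i w_i - w_(i-1)`. -/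
def run : List ℤ → ℤ × ℤ → ℤ × ℤ → (ℤ × ℤ) × (ℤ × ℤ)
  | [], x, y => (x, y)
  | c :: l, x, y => run l y (c * y.1 - x.1, c * y.2 - x.2)

/-- first vector -/
abbrev x0 : ℤ × ℤ := (1, 0)

/-- second vector -/
abbrev x1 : ℤ × ℤ := (1, 1)

/-- `IsZero` in terms of vectors -/
def VZero (k : List ℤ) : Prop :=
  k ≠ [] ∧ (run k x0 x1).2 = (-1, 0) ∧
    ∀ (l₁ : List ℤ) (c : ℤ) (l₂ : List ℤ), k = l₁ ++ c :: l₂ → 0 < (run l₁ x0 x1).2.2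

/-- `IsChain` in terms of vectors -/
def VChain (n a : ℤ) (b : List ℤ) : Prop := (∀ x ∈ b, 2 ≤ x) ∧ (run b x0 x1).2 = (a, n)

/-- the tuple `k` of a filling, with the vectors `u = y_i`, `v = y_j` of the chain of `k` at the
two places (or at the place) where `k` differs from `b` -/
def Fil (n a : ℤ) (k : List ℤ) (u v : ℤ × ℤ) : Prop :=
  VZero k ∧
  ((∃ (l₁ l₂ l₃ : List ℤ) (c d : ℤ), k = l₁ ++ c :: (l₂ ++ d :: l₃) ∧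
      VChain n a (l₁ ++ (c + 1) :: (l₂ ++ (d + 1) :: l₃)) ∧
      (run l₁ x0 x1).2 = u ∧ (run (l₁ ++ c :: l₂) x0 x1).2 = v) ∨
    (∃ (l₁ l₂ : List ℤ) (c : ℤ), k = l₁ ++ c :: l₂ ∧ VChain n a (l₁ ++ (c + 2) :: l₂) ∧
      (run l₁ x0 x1).2 = u ∧ u = v))

/-- decompositions -/
structure Dec (n a : ℤ) (u v : ℤ × ℤ) : Prop where
  pu : IsCoprime u.1 u.2
  pv : IsCoprime v.1 v.2
  hu : 0 < u.2
  hv : 0 < v.2
  huv : 0 ≤ br u v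
  eq : T u (T v (-1, 0)) = (a, n)

/-- the relation of two decompositions -/
def Quad (r s d : ℤ) (u v u' v' : ℤ × ℤ) : Prop :=
  0 < r ∧ 0 < s ∧ 0 < d ∧ br u v = d ∧ r ^ 2 + s ^ 2 + d * r * s = d ^ 2 ∧
    d * v'.1 = r * v.1 - s * u.1 ∧ d * v'.2 = r * v.2 - s * u.2 ∧
    d * u'.1 = s * v.1 + (r + d * s) * u.1 ∧ d * u'.2 = s * v.2 + (r + d * s) * u.2

/-- equality of the products of the transvections -/
def SameM (u v u' v' : ℤ × ℤ) : Prop := ∀ x, T u (T v x) = T u' (T v' x)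

/-! ## Module statements -/

def CFZStm : Prop := ∀ k : List ℤ, IsZero k ↔ VZero k

def CFCStm : Prop := ∀ (n a : ℤ) (b : List ℤ), 0 < a → a < n → IsCoprime n a →
  (IsChain n a b ↔ VChain n a b)

def LISTStm : Prop := ∀ k b : List ℤ, List.Forall₂ (· ≤ ·) k b ∧ b.sum = k.sum + 2 ↔
  (∃ (l₁ l₂ l₃ : List ℤ) (c d : ℤ), k = l₁ ++ c :: (l₂ ++ d :: l₃) ∧
      b = l₁ ++ (c + 1) :: (l₂ ++ (d + 1) :: l₃)) ∨
    (∃ (l₁ l₂ : List ℤ) (c : ℤ), k = l₁ ++ c :: l₂ ∧ b = l₁ ++ (c + 2) :: l₂)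

def UNQStm : Prop := ∀ (b b' : List ℤ) (x y : ℤ × ℤ), br x y = 1 → (∀ c ∈ b, 2 ≤ c) →
  (∀ c ∈ b', 2 ≤ c) → (run b x y).2 = (run b' x y).2 → b = b'

def SUMStm : Prop := ∀ k : List ℤ, VZero k →
  (run k x0 x1).1 = (1 - (3 * ((k.length : ℤ) - 1) - k.sum), 1)

def DECStm : Prop := ∀ (n a : ℤ) (k : List ℤ) (u v : ℤ × ℤ), Fil n a k u v → Dec n a u v

def SAMStm : Prop := ∀ (n a : ℤ) (k k' : List ℤ) (u v u' v' : ℤ × ℤ),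
  Fil n a k u v → Fil n a k' u' v' → SameM u v u' v'

def INJStm : Prop := ∀ (n a : ℤ) (k k' : List ℤ) (u v u' v' : ℤ × ℤ),
  Fil n a k u v → Fil n a k' u' v' → (k = k' ↔ (u = u' ∧ v = v'))

def EXAStm : Prop := ∀ w w' : ℤ × ℤ, IsCoprime w.1 w.2 → IsCoprime w'.1 w'.2 → 0 < br w w' →
  ∃ (l : List ℤ) (w₁ : ℤ × ℤ), (∀ c ∈ l, 2 ≤ c) ∧ br w w₁ = 1 ∧ (run l w w₁).2 = w' ∧
    ∀ (l₁ : List ℤ) (c : ℤ) (l₂ : List ℤ), l = l₁ ++ c :: l₂ →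
      0 < br w (run l₁ w w₁).2 ∧ 0 < br (run l₁ w w₁).2 w'

def EXBStm : Prop := ∀ (n a : ℤ) (u v : ℤ × ℤ), 0 < a → a < n → Dec n a u v →
  ∃ k, Fil n a k u v

def REVStm : Prop := ∀ (n a : ℤ) (k : List ℤ) (u v : ℤ × ℤ), 0 < a → a < n → n ∣ a ^ 2 - 1 →
  Fil n a k u v → ∃ u' v' : ℤ × ℤ, Fil n a k.reverse u' v' ∧ u'.2 = v.2 ∧ v'.2 = u.2

def ALGStm : Prop := ∀ (n a : ℤ) (u v u' v' : ℤ × ℤ), Dec n a u v → Dec n a u' v' →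
  SameM u v u' v' → (u = u' ∧ v = v') ∨ (∃ r s d, Quad r s d u v u' v') ∨
    (∃ r s d, Quad r s d u' v' u v)

def ALBStm : Prop := ∀ (n a r s d : ℤ) (u v u' v' : ℤ × ℤ), Dec n a u v →
  Quad r s d u v u' v' → IsCoprime u'.1 u'.2 → IsCoprime v'.1 v'.2 → 0 < u'.2 → 0 < v'.2 →
  Dec n a u' v'

def ARIStm : Prop := ∀ r s r' s' r₂ s₂ d : ℤ, 0 < r → 0 < s → 0 < r' → 0 < s' → 0 < r₂ →
  0 < s₂ → 0 < d → r ^ 2 + s ^ 2 + d * r * s = d ^ 2 → r' ^ 2 + s' ^ 2 + d * r' * s' = d ^ 2 →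
  r₂ ^ 2 + s₂ ^ 2 + d * r₂ * s₂ = d ^ 2 → d * r₂ = r * r' - s * s' →
  d * s₂ = d * s * s' + r * s' + r' * s → False

def THRStm : Prop := ∀ (n a : ℤ) (u v u' v' u'' v'' : ℤ × ℤ), Dec n a u v → Dec n a u' v' →
  Dec n a u'' v'' → SameM u v u' v' → SameM u v u'' v'' →
  (u = u' ∧ v = v') ∨ (u = u'' ∧ v = v'') ∨ (u' = u'' ∧ v' = v'')

def TREEStm : Prop := ∀ r s c : ℤ, Node r s c ↔
  (0 ≤ r ∧ 0 ≤ s ∧ 0 < c ∧ r ^ 2 + s ^ 2 = c * (c + r * s))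

def PARStm : Prop := ∀ n a : ℤ, 0 < a → a < n →
  ((∃ (r s d : ℤ) (u v u' v' : ℤ × ℤ), Dec n a u v ∧ Dec n a u' v' ∧ Quad r s d u v u' v' ∧
    ¬ (u'.2 = v.2 ∧ v'.2 = u.2 ∧ n ∣ a ^ 2 - 1)) ↔ Param n a)

def FINStm : Prop := ∀ n a : ℤ, 0 < a → a < n → IsCoprime n a → (ExactlyTwo n a ↔ Param n a)

end Pool.Agent.T6.H32.LS
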