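import Mathlib
import Pool.Agent.T6.H32.LS.Defs

/-! Module ALB (helper80) of project LS (helper32). -/

set_option autoImplicit false

namespace Pool.Agent.T6.H32.LS

namespace ModALB

theorem T_T (u v x : ℤ × ℤ) : T u (T v x) =
    (x.1 + br v x * v.1 + (br u x + br v x * br u v) * u.1,
     x.2 + br v x * v.2 + (br u x + br v x * br u v) * u.2) := by
  simp only [T, br, Prod.mk.injEq]
  constructor <;> ring

theorem scalar (d r s B1 B2 B1' B2' v u v' u' : ℤ)
    (hb1 : d * B1' = r * B1 - s * B2) (hb2 : d * B2' = s * B1 + (r + d * s) * B2)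
    (hv : d * v' = r * v - s * u) (hu : d * u' = s * v + (r + d * s) * u)
    (hc : r ^ 2 + s ^ 2 + d * r * s = d ^ 2) :
    d ^ 2 * (B1' * v' + (B2' + B1' * d) * u') = d ^ 2 * (B1 * v + (B2 + B1 * d) * u) := by
  have e1 : d ^ 2 * (B1' * v' + (B2' + B1' * d) * u') =
      (d * B1') * (d * v') + (d * B2' + (d * B1') * d) * (d * u') := by ring
  rw [e1, hb1, hb2, hv, hu]
  linear_combination (B1 * v + (B2 + B1 * d) * u) * hc

theorem br_new (r s d : ℤ) (u v u' v' : ℤ × ℤ) (h : Quad r s d u v u' v') : br u' v' = d := by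
  obtain ⟨h1, h2, h3, h4, h5, h6, h7, h8, h9⟩ := h
  have hd : d ^ 2 ≠ 0 := by positivity
  apply mul_left_cancel₀ hd
  have e1 : d ^ 2 * br u' v' = (d * u'.1) * (d * v'.2) - (d * u'.2) * (d * v'.1) := by
    simp only [br]; ring
  rw [e1, h6, h7, h8, h9]
  simp only [br] at h4
  linear_combination d * h5 + (r ^ 2 + s ^ 2 + d * r * s) * h4

theorem sameM (r s d : ℤ) (u v u' v' : ℤ × ℤ) (h : Quad r s d u v u' v') (x : ℤ × ℤ) :
    T u' (T v' x) = T u (T v x) := by
  have hb := br_new r s d u v u' v' h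
  obtain ⟨h1, h2, h3, h4, h5, h6, h7, h8, h9⟩ := h
  have hd : d ^ 2 ≠ 0 := by positivity
  have hb1 : d * br v' x = r * br v x - s * br u x := by
    simp only [br]; linear_combination x.2 * h6 - x.1 * h7
  have hb2 : d * br u' x = s * br v x + (r + d * s) * br u x := by
    simp only [br]; linear_combination x.2 * h8 - x.1 * h9
  rw [T_T, T_T, hb, h4]
  have k1 := mul_left_cancel₀ hd (scalar d r s _ _ _ _ v.1 u.1 v'.1 u'.1 hb1 hb2 h6 h8 h5)
  have k2 := mul_left_cancel₀ hd (scalar d r s _ _ _ _ v.2 u.2 v'.2 u'.2 hb1 hb2 h7 h9 h5)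
  simp only [Prod.mk.injEq]
  constructor
  · linear_combination k1
  · linear_combination k2

end ModALB

theorem alb : ALBStm := by
  intro n a r s d u v u' v' hD hQ hpu hpv hu hv
  refine ⟨hpu, hpv, hu, hv, ?_, ?_⟩
  · rw [ModALB.br_new r s d u v u' v' hQ]
    exact hQ.2.2.1.le
  · rw [ModALB.sameM r s d u v u' v' hQ]
    exact hD.eq

end Pool.Agent.T6.H32.LS
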