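import Mathlib
import Pool.Agent.T6.H32.LS.Defs

/-! Module ALG (helper80) of project LS (helper32). -/

set_option autoImplicit false

namespace Pool.Agent.T6.H32.LS

namespace ModALG

theorem T_T (u v x : ℤ × ℤ) : T u (T v x) =
    (x.1 + br v x * v.1 + (br u x + br v x * br u v) * u.1,
     x.2 + br v x * v.2 + (br u x + br v x * br u v) * u.2) := by
  simp only [T, br, Prod.mk.injEq]
  constructor <;> ring

theorem br_self (u : ℤ × ℤ) : br u u = 0 := by simp only [br]; ring

/-- parallel primitive vectors with positive second coordinate are equal -/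
theorem par_eq (p q : ℤ × ℤ) (hp : IsCoprime p.1 p.2) (hq : IsCoprime q.1 q.2)
    (hp2 : 0 < p.2) (hq2 : 0 < q.2) (h : br p q = 0) : p = q := by
  have h' : p.1 * q.2 = p.2 * q.1 := by
    simp only [br] at h; linarith
  have d1 : p.2 ∣ q.2 := by
    have : p.2 ∣ p.1 * q.2 := ⟨q.1, h'⟩
    exact hp.symm.dvd_of_dvd_mul_left this
  have d2 : q.2 ∣ p.2 := by
    have : q.2 ∣ q.1 * p.2 := ⟨p.1, by linarith⟩
    exact hq.symm.dvd_of_dvd_mul_left this
  have e2 : p.2 = q.2 := Int.dvd_antisymm hp2.le hq2.le d1 d2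
  have e1 : p.1 = q.1 := by
    rw [e2] at h'
    have : q.2 * p.1 = q.2 * q.1 := by linarith
    exact mul_left_cancel₀ hq2.ne' this
  exact Prod.ext e1 e2

theorem disc (u v u' v' : ℤ × ℤ) (h : SameM u v u' v') (h1 : 0 ≤ br u v) (h2 : 0 ≤ br u' v') :
    br u v = br u' v' := by
  have e1 := h (1, 0)
  have e2 := h (0, 1)
  rw [T_T, T_T] at e1 e2
  simp only [Prod.mk.injEq] at e1 e2
  obtain ⟨a1, -⟩ := e1
  obtain ⟨-, b2⟩ := e2
  have : br u v ^ 2 = br u' v' ^ 2 := by
    simp only [br] at a1 b2 ⊢
    linear_combination (-1 : ℤ) * a1 - b2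
  exact (pow_left_inj₀ h1 h2 two_ne_zero).mp this

end ModALG

open ModALG in
theorem alg : ALGStm := by
  intro n a u v u' v' hD hD' hM
  have hdisc := disc u v u' v' hM hD.huv hD'.huv
  rcases eq_or_lt_of_le hD.huv with h0 | hpos
  · -- d = 0
    left
    have hb : br u v = 0 := h0.symm
    have hb' : br u' v' = 0 := by rw [← hdisc]; exact hb
    have e1 : u = v := par_eq u v hD.pu hD.pv hD.hu hD.hv hb
    have e2 : u' = v' := par_eq u' v' hD'.pu hD'.pv hD'.hu hD'.hv hb'
    subst e1
    subst e2
    have e := hM (1, 0)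
    rw [T_T, T_T, hb, hb'] at e
    simp only [Prod.mk.injEq, br] at e
    obtain ⟨a1, a2⟩ := e
    have q2 : u.2 ^ 2 = u'.2 ^ 2 := by linarith [a1, a2]
    have q3 : u.2 = u'.2 := (pow_left_inj₀ hD.hu.le hD'.hu.le two_ne_zero).mp q2
    have q4 : u.2 * u.1 = u'.2 * u'.1 := by linarith [a1, a2]
    have q5 : u.1 = u'.1 := by
      rw [q3] at q4
      exact mul_left_cancel₀ hD'.hu.ne' q4
    have q6 : u = u' := Prod.ext q5 q3
    exact ⟨q6, q6⟩
  · -- d > 0
    obtain ⟨d, hd⟩ : ∃ d, d = br u v := ⟨_, rfl⟩
    have hd' : br u' v' = d := by rw [← hdisc, hd]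
    rw [← hd] at hpos
    obtain ⟨A, hA⟩ : ∃ A, A = br u v' := ⟨_, rfl⟩
    obtain ⟨B, hB⟩ : ∃ B, B = br v v' := ⟨_, rfl⟩
    have v1 : d * v'.1 = A * v.1 - B * u.1 := by
      rw [hd, hA, hB]; simp only [br]; ring
    have v2 : d * v'.2 = A * v.2 - B * u.2 := by
      rw [hd, hA, hB]; simp only [br]; ring
    have e := hM v'
    rw [T_T, T_T, br_self, hd', ← hd, ← hA, ← hB] at e
    simp only [Prod.mk.injEq] at e
    obtain ⟨e1, e2⟩ := e
    have u1 : d * u'.1 = B * v.1 + (A + d * B) * u.1 := by linear_combination (-1 : ℤ) * e1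
    have u2 : d * u'.2 = B * v.2 + (A + d * B) * u.2 := by linear_combination (-1 : ℤ) * e2
    have conic : A ^ 2 + B ^ 2 + d * A * B = d ^ 2 := by
      have hdn : d ≠ 0 := hpos.ne'
      have k1 : d ^ 2 * br u' v' = (d * u'.1) * (d * v'.2) - (d * u'.2) * (d * v'.1) := by
        simp only [br]; ring
      rw [u1, u2, v1, v2, hd'] at k1
      have k2 : (B * v.1 + (A + d * B) * u.1) * (A * v.2 - B * u.2) -
          (B * v.2 + (A + d * B) * u.2) * (A * v.1 - B * u.1) =
          (A ^ 2 + B ^ 2 + d * A * B) * br u v := by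
        simp only [br]; ring
      rw [k2, ← hd] at k1
      apply mul_right_cancel₀ hdn
      linear_combination (-1 : ℤ) * k1
    have pu2 := hD.hu
    have pv2 := hD.hv
    have pu2' := hD'.hu
    have pv2' := hD'.hv
    have pdv : 0 < A * v.2 - B * u.2 := by rw [← v2]; exact mul_pos hpos pv2'
    have pdu : 0 < B * v.2 + (A + d * B) * u.2 := by rw [← u2]; exact mul_pos hpos pu2'
    rcases lt_trichotomy B 0 with hBn | hBz | hBp
    · -- B < 0
      rcases le_or_gt A 0 with hAn | hAp
      · exfalso
        have t1 : B * v.2 < 0 := mul_neg_of_neg_of_pos hBn pv2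
        have t2 : d * B < 0 := mul_neg_of_pos_of_neg hpos hBn
        have t3 : (A + d * B) * u.2 < 0 := mul_neg_of_neg_of_pos (by linarith) pu2
        linarith
      · right; right
        have t1 : B * v.2 < 0 := mul_neg_of_neg_of_pos hBn pv2
        have t2 : 0 < (A + d * B) * u.2 := by linarith
        have t3 : 0 < A + d * B := (pos_iff_pos_of_mul_pos t2).mpr pu2
        have hdn : d ≠ 0 := hpos.ne'
        refine ⟨A + d * B, -B, d, t3, by linarith, hpos, hd', ?_, ?_, ?_, ?_, ?_⟩
        · linear_combination conic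
        · apply mul_left_cancel₀ hdn
          have : d * ((A + d * B) * v'.1 - -B * u'.1) = (A + d * B) * (d * v'.1) + B * (d * u'.1) := by
            ring
          rw [this, v1, u1]
          linear_combination (-v.1) * conic
        · apply mul_left_cancel₀ hdn
          have : d * ((A + d * B) * v'.2 - -B * u'.2) = (A + d * B) * (d * v'.2) + B * (d * u'.2) := by
            ring
          rw [this, v2, u2]
          linear_combination (-v.2) * conic
        · apply mul_left_cancel₀ hdn
          have : d * (-B * v'.1 + (A + d * B + d * -B) * u'.1) =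
              -B * (d * v'.1) + A * (d * u'.1) := by ring
          rw [this, v1, u1]
          linear_combination (-u.1) * conic
        · apply mul_left_cancel₀ hdn
          have : d * (-B * v'.2 + (A + d * B + d * -B) * u'.2) =
              -B * (d * v'.2) + A * (d * u'.2) := by ring
          rw [this, v2, u2]
          linear_combination (-u.2) * conic
    · -- B = 0
      left
      rw [hBz] at v1 v2 u1 u2 conic pdv pdu
      have t1 : 0 < A * v.2 := by linarith
      have t2 : 0 < A := (pos_iff_pos_of_mul_pos t1).mpr pv2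
      have t3 : A ^ 2 = d ^ 2 := by linarith
      have t4 : A = d := (pow_left_inj₀ t2.le hpos.le two_ne_zero).mp t3
      rw [t4] at v1 v2 u1 u2
      have hdn : d ≠ 0 := hpos.ne'
      constructor
      · apply Prod.ext
        · apply mul_left_cancel₀ hdn; linarith
        · apply mul_left_cancel₀ hdn; linarith
      · apply Prod.ext
        · apply mul_left_cancel₀ hdn; linarith
        · apply mul_left_cancel₀ hdn; linarith
    · -- B > 0
      rcases le_or_gt A 0 with hAn | hAp
      · exfalso
        have t1 : A * v.2 ≤ 0 := mul_nonpos_of_nonpos_of_nonneg hAn pv2.le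
        have t2 : 0 < B * u.2 := mul_pos hBp pu2
        linarith
      · right; left
        exact ⟨A, B, d, hAp, hBp, hpos, hd.symm, conic, v1, v2, u1, u2⟩

end Pool.Agent.T6.H32.LS
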