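import Mathlib
import Pool.Agent.T6.H32.LS.Defs

/-! MP_7470a2_gt (helper32), module ARI: the arithmetic of three decompositions. -/

set_option autoImplicit false

namespace Pool.Agent.T6.H32.LS

namespace ARIx

theorem z4 : ∀ S g t : ZMod 4, 1 + S ^ 2 + 2 * g * t * S = 0 → 2 * g = 2 ∧ 2 * t = 2 := by
  decide

theorem z8 : ∀ r t : ZMod 8, t ^ 2 = 1 → r ^ 2 + 2 * t * r = 3 → 2 * t * r = 2 := by
  decide

theorem odd_of {x : ℤ} (h : (2 * (x : ZMod 4)) = 2) : x % 2 = 1 := by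
  have h1 : ((2 * x - 2 : ℤ) : ZMod 4) = 0 := by push_cast; rw [h]; ring
  rw [ZMod.intCast_zmod_eq_zero_iff_dvd] at h1
  obtain ⟨k, hk⟩ := h1
  push_cast at hk
  omega

theorem sq8 {x : ℤ} (h : x % 2 = 1) : ((x : ZMod 8)) ^ 2 = 1 := by
  have h1 : (8 : ℤ) ∣ x ^ 2 - 1 := Int.eight_dvd_sq_sub_one_of_odd (Int.odd_iff.2 h)
  have h2 : ((x ^ 2 - 1 : ℤ) : ZMod 8) = 0 := by
    rw [ZMod.intCast_zmod_eq_zero_iff_dvd]
    exact_mod_cast h1
  push_cast at h2
  exact sub_eq_zero.1 h2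

end ARIx

open ARIx in
theorem ari : ARIStm := by
  intro r s r' s' r₂ s₂ d hr hs hr' hs' hr₂ hs₂ hd H0 H1 H2 E1 E2
  -- (1)
  have k1 : 2 * (s * s') * s₂ = d * (r * s + r' * s' - r₂ * s₂ - r₂ * (s * s')) := by
    have h : d * (2 * (s * s') * s₂ - d * (r * s + r' * s' - r₂ * s₂ - r₂ * (s * s'))) = 0 := by
      linear_combination (2 * (s * s') + d * r₂) * E2 + (d * s * s' + r * s' + r' * s +
        d * (s * s')) * E1 + (r' * s') * H0 + (r * s) * H1
    rcases mul_eq_zero.1 h with h | h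
    · omega
    · linarith
  have hgpos : 0 < s * s' := mul_pos hs hs'
  -- (2)
  have he1 : ((Int.gcd s₂ d : ℕ) : ℤ) ∣ s₂ := Int.gcd_dvd_left ..
  have he2 : ((Int.gcd s₂ d : ℕ) : ℤ) ∣ d := Int.gcd_dvd_right ..
  set e : ℤ := ((Int.gcd s₂ d : ℕ) : ℤ) with he
  have hepos : 0 < e := by
    have : 0 < Int.gcd s₂ d := Int.gcd_pos_of_ne_zero_left _ hs₂.ne'
    rw [he]
    exact_mod_cast this
  have he3 : e ∣ r₂ := by
    have h1 : e ^ 2 ∣ r₂ ^ 2 := by
      have h2 : r₂ ^ 2 = d ^ 2 - s₂ ^ 2 - d * s₂ * r₂ := by linarith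
      rw [h2]
      refine dvd_sub (dvd_sub (pow_dvd_pow_of_dvd he2 2) (pow_dvd_pow_of_dvd he1 2)) ?_
      rw [pow_two]
      exact Dvd.dvd.mul_right (mul_dvd_mul he2 he1) _
    exact (Int.pow_dvd_pow_iff two_ne_zero).1 h1
  -- (3)
  have hde : d ∣ 2 * (s * s') * e := by
    have hb : e = s₂ * Int.gcdA s₂ d + d * Int.gcdB s₂ d := Int.gcd_eq_gcd_ab s₂ d
    have h1 : 2 * (s * s') * e = d * ((r * s + r' * s' - r₂ * s₂ - r₂ * (s * s')) *
        Int.gcdA s₂ d + 2 * (s * s') * Int.gcdB s₂ d) := by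
      rw [hb]
      linear_combination (Int.gcdA s₂ d) * k1
    exact ⟨_, h1⟩
  have hrs : r * s < d := by
    have : d * (r * s) < d * d := by nlinarith [sq_nonneg r, sq_nonneg s, mul_pos hr hs]
    exact lt_of_mul_lt_mul_left this hd.le
  have hrs' : r' * s' < d := by
    have : d * (r' * s') < d * d := by nlinarith [sq_nonneg r', sq_nonneg s', mul_pos hr' hs']
    exact lt_of_mul_lt_mul_left this hd.le
  have hgr : s * s' * r₂ < d := by
    have h1 : (s * s') * (s * s' + d * r₂) = (r * s) * (r' * s') := by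
      rw [E1]; ring
    have h2 : (r * s) * (r' * s') < d * d :=
      mul_lt_mul'' hrs hrs' (mul_pos hr hs).le (mul_pos hr' hs').le
    have h3 : d * (s * s' * r₂) < d * d := by
      have : 0 < (s * s') * (s * s') := mul_pos hgpos hgpos
      nlinarith
    exact lt_of_mul_lt_mul_left h3 hd.le
  obtain ⟨ρ, hρ⟩ := he3
  have hρ0 : 0 < ρ := by
    rw [hρ] at hr₂
    exact (mul_pos_iff_of_pos_left hepos).1 hr₂
  obtain ⟨κ, hκ⟩ := hde
  have hκ0 : 0 < κ := by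
    have : 0 < d * κ := by rw [← hκ]; positivity
    exact (mul_pos_iff_of_pos_left hd).1 this
  have h2 : d * (κ * ρ) < d * 2 := by
    have : d * (κ * ρ) = 2 * (s * s' * r₂) := by
      rw [hρ]; linear_combination (-ρ) * hκ
    rw [this]; linarith
  have h3 : κ * ρ < 2 := lt_of_mul_lt_mul_left h2 hd.le
  have hκ1 : κ = 1 := by nlinarith
  have hρ1 : ρ = 1 := by rw [hκ1] at h3; omega
  rw [hκ1, mul_one] at hκ
  rw [hρ1, mul_one] at hρ
  rw [← hρ] at hκ he1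
  -- now d = 2 s s' r₂ and r₂ ∣ s₂
  obtain ⟨S, hS⟩ := he1
  have h4 : 1 + S ^ 2 + d * S = 4 * (s * s') ^ 2 := by
    have h5 : r₂ ^ 2 * (1 + S ^ 2 + d * S - 4 * (s * s') ^ 2) = 0 := by
      rw [hS] at H2
      have : d ^ 2 = (2 * (s * s') * r₂) ^ 2 := by rw [hκ]
      linear_combination H2 + this
    rcases mul_eq_zero.1 h5 with h | h
    · have : 0 < r₂ ^ 2 := by positivity
      omega
    · linarith
  have hg2 : (s * s') % 2 = 1 ∧ r₂ % 2 = 1 := by
    have h5 : ((1 + S ^ 2 + 2 * (s * s') * r₂ * S : ℤ) : ZMod 4) = 0 := by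
      rw [ZMod.intCast_zmod_eq_zero_iff_dvd]
      refine ⟨(s * s') ^ 2, ?_⟩
      push_cast
      rw [← h4, ← hκ]
    push_cast at h5
    have h6 := z4 (S : ZMod 4) ((s : ZMod 4) * (s' : ZMod 4)) (r₂ : ZMod 4) (by
      rw [← h5])
    exact ⟨odd_of (by push_cast; exact h6.1), odd_of h6.2⟩
  have hs2 : s % 2 = 1 := by
    rcases Int.even_or_odd s with h | h
    · have : Even (s * s') := h.mul_right s'
      rw [Int.even_iff] at this
      omega
    · exact Int.odd_iff.1 h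
  have hs2' : s' % 2 = 1 := by
    rcases Int.even_or_odd s' with h | h
    · have : Even (s * s') := h.mul_left s
      rw [Int.even_iff] at this
      omega
    · exact Int.odd_iff.1 h
  have a1 := sq8 hs2
  have a2 := sq8 hs2'
  have a3 := sq8 hg2.2
  have c0 : ((r : ZMod 8)) ^ 2 + (s : ZMod 8) ^ 2 + (d : ZMod 8) * r * s = (d : ZMod 8) ^ 2 := by
    have := congrArg (Int.cast : ℤ → ZMod 8) H0
    push_cast at this
    exact this
  have c1 : ((r' : ZMod 8)) ^ 2 + (s' : ZMod 8) ^ 2 + (d : ZMod 8) * r' * s' =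
      (d : ZMod 8) ^ 2 := by
    have := congrArg (Int.cast : ℤ → ZMod 8) H1
    push_cast at this
    exact this
  have c2 : (d : ZMod 8) = 2 * ((s : ZMod 8) * s') * r₂ := by
    rw [← hκ]; push_cast; ring
  have c3 : (r : ZMod 8) * r' = (s : ZMod 8) * s' * (1 + 2 * (r₂ : ZMod 8) ^ 2) := by
    have h5 : r * r' = s * s' * (1 + 2 * r₂ ^ 2) := by
      rw [← hκ] at E1
      linear_combination -E1
    have := congrArg (Int.cast : ℤ → ZMod 8) h5
    push_cast at this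
    exact this
  have b0 : 2 * ((s' : ZMod 8) * r₂) * r = 2 := by
    refine z8 _ _ (by rw [mul_pow, a2, a3]; ring) ?_
    rw [c2] at c0
    have e4 : (2 * ((s : ZMod 8) * s') * r₂) ^ 2 = 4 := by
      have : (2 * ((s : ZMod 8) * s') * r₂) ^ 2 =
        4 * ((s : ZMod 8) ^ 2) * ((s' : ZMod 8) ^ 2) * ((r₂ : ZMod 8) ^ 2) := by ring
      rw [this, a1, a2, a3]; ring
    rw [e4] at c0
    have e5 : (r : ZMod 8) ^ 2 + (s : ZMod 8) ^ 2 + 2 * ((s : ZMod 8) * s') * r₂ * r * s =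
        (r : ZMod 8) ^ 2 + (s : ZMod 8) ^ 2 +
          2 * ((s' : ZMod 8) * r₂) * r * ((s : ZMod 8) ^ 2) := by ring
    rw [e5, a1] at c0
    linear_combination c0
  have b1 : 2 * ((s : ZMod 8) * r₂) * r' = 2 := by
    refine z8 _ _ (by rw [mul_pow, a1, a3]; ring) ?_
    rw [c2] at c1
    have e4 : (2 * ((s : ZMod 8) * s') * r₂) ^ 2 = 4 := by
      have : (2 * ((s : ZMod 8) * s') * r₂) ^ 2 =
        4 * ((s : ZMod 8) ^ 2) * ((s' : ZMod 8) ^ 2) * ((r₂ : ZMod 8) ^ 2) := by ring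
      rw [this, a1, a2, a3]; ring
    rw [e4] at c1
    have e5 : (r' : ZMod 8) ^ 2 + (s' : ZMod 8) ^ 2 + 2 * ((s : ZMod 8) * s') * r₂ * r' * s' =
        (r' : ZMod 8) ^ 2 + (s' : ZMod 8) ^ 2 +
          2 * ((s : ZMod 8) * r₂) * r' * ((s' : ZMod 8) ^ 2) := by ring
    rw [e5, a2] at c1
    linear_combination c1
  have f : (6 : ZMod 8) = 2 := by
    have h5 : 2 * ((s' : ZMod 8) * r₂) * r * (((s : ZMod 8) * r₂) * r') = 2 := by
      rw [b0]
      linear_combination b1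
    have h6 : 2 * ((s' : ZMod 8) * r₂) * r * (((s : ZMod 8) * r₂) * r') =
        2 * (s : ZMod 8) * s' * ((r₂ : ZMod 8) ^ 2) * ((r : ZMod 8) * r') := by ring
    rw [h6, c3] at h5
    have h7 : 2 * (s : ZMod 8) * s' * ((r₂ : ZMod 8) ^ 2) *
        ((s : ZMod 8) * s' * (1 + 2 * (r₂ : ZMod 8) ^ 2)) =
        2 * ((s : ZMod 8) ^ 2) * ((s' : ZMod 8) ^ 2) * ((r₂ : ZMod 8) ^ 2) *
          (1 + 2 * (r₂ : ZMod 8) ^ 2) := by ring
    rw [h7, a1, a2, a3] at h5
    rw [← h5]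
    ring
  exact absurd f (by decide)

end Pool.Agent.T6.H32.LS
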