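import Mathlib
import Pool.Agent.T6.H32.LS.Defs

/-! Basic lemmas (helper32). -/

set_option autoImplicit false

namespace Pool.Agent.T6.H32.LS

theorem run_nil (x y : ℤ × ℤ) : run [] x y = (x, y) := rfl

theorem run_cons (c : ℤ) (l : List ℤ) (x y : ℤ × ℤ) :
    run (c :: l) x y = run l y (c * y.1 - x.1, c * y.2 - x.2) := rfl

theorem run_append (l₁ l₂ : List ℤ) (x y : ℤ × ℤ) :
    run (l₁ ++ l₂) x y = run l₂ (run l₁ x y).1 (run l₁ x y).2 := by
  induction l₁ generalizing x y with
  | nil => rfl
  | cons c l ih => rw [List.cons_append, run_cons, run_cons, ih]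

/-- the determinant of consecutive vectors is constant -/
theorem br_run (l : List ℤ) (x y : ℤ × ℤ) : br (run l x y).1 (run l x y).2 = br x y := by
  induction l generalizing x y with
  | nil => rfl
  | cons c l ih =>
    rw [run_cons, ih]
    simp only [br]
    ring

theorem T_self (u : ℤ × ℤ) : T u u = u := by
  have : br u u = 0 := by simp only [br]; ring
  simp [T, this]

theorem T_comb (u x y : ℤ × ℤ) (c : ℤ) :
    T u (c * y.1 - x.1, c * y.2 - x.2) =
      (c * (T u y).1 - (T u x).1, c * (T u y).2 - (T u x).2) := by
  simp only [T, br, Prod.mk.injEq]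
  constructor <;> ring

theorem T_br (u x y : ℤ × ℤ) : br (T u x) (T u y) = br x y := by
  simp only [T, br]; ring

/-- `run` commutes with transvections -/
theorem run_T (l : List ℤ) (u x y : ℤ × ℤ) :
    run l (T u x) (T u y) = (T u (run l x y).1, T u (run l x y).2) := by
  induction l generalizing x y with
  | nil => rfl
  | cons c l ih => rw [run_cons, run_cons, ← T_comb, ih]

/-- raising one entry by `1` applies the transvection of the vector at this place -/
theorem run_raise (l₁ l₂ : List ℤ) (c : ℤ) (x y : ℤ × ℤ) (h : br x y = 1) :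
    run (l₁ ++ (c + 1) :: l₂) x y =
      (T (run l₁ x y).2 (run (l₁ ++ c :: l₂) x y).1,
        T (run l₁ x y).2 (run (l₁ ++ c :: l₂) x y).2) := by
  have hb := br_run l₁ x y
  rw [h] at hb
  rw [run_append, run_append, run_cons, run_cons, ← run_T, T_self]
  congr 1
  simp only [T, br, Prod.mk.injEq] at hb ⊢
  constructor
  · linear_combination (-(run l₁ x y).2.1) * hb
  · linear_combination (-(run l₁ x y).2.2) * hb

/-- Plücker relation -/
theorem plucker (a b c d : ℤ × ℤ) : br a b * br c d - br a c * br b d + br a d * br b c = 0 := by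
  simp only [br]; ring

end Pool.Agent.T6.H32.LS
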