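import Mathlib
import Pool.Agent.T6.H32.LS.Basic

/-! Module CFC (helper82): the chain in terms of vectors. -/

set_option autoImplicit false

namespace Pool.Agent.T6.H32.LS

namespace CFCx

/-- the continuants of `l` and of its tail -/
def KK : List ℤ → ℤ × ℤ
  | [] => (1, 0)
  | c :: l => (c * (KK l).1 - (KK l).2, (KK l).1)

lemma run_eq (l : List ℤ) : ∀ x y : ℤ × ℤ, (run l x y).2 =
    ((KK l).1 * y.1 - (KK l).2 * x.1, (KK l).1 * y.2 - (KK l).2 * x.2) := by
  induction l with
  | nil => intro x y; simp [run, KK]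
  | cons c l ih =>
    intro x y
    rw [run_cons, ih]
    simp only [KK, Prod.mk.injEq]
    constructor <;> ring

lemma bounds (l : List ℤ) (h : ∀ c ∈ l, 2 ≤ c) : 0 ≤ (KK l).2 ∧ (KK l).2 < (KK l).1 := by
  induction l with
  | nil => simp [KK]
  | cons c l ih =>
    have h1 := ih fun d hd => h d (List.mem_cons_of_mem _ hd)
    have h2 := h c List.mem_cons_self
    simp only [KK]
    constructor <;> nlinarith

lemma cop (l : List ℤ) : IsCoprime (KK l).1 (KK l).2 := by
  induction l with
  | nil => simp [KK, isCoprime_one_left]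
  | cons c l ih =>
    simp only [KK]
    obtain ⟨a, b, hab⟩ := ih
    exact ⟨-b, a + c * b, by linear_combination hab⟩

lemma cf_eq (l : List ℤ) (h : ∀ c ∈ l, 2 ≤ c) : cf l = ((KK l).1 : ℚ) / ((KK l).2 : ℚ) := by
  induction l with
  | nil => simp [KK, cf]
  | cons c l ih =>
    have h1 := fun d hd => h d (List.mem_cons_of_mem _ hd)
    have h2 := bounds l h1
    have h3 : ((KK l).1 : ℚ) ≠ 0 := by
      have : (0 : ℤ) < (KK l).1 := by omega
      exact_mod_cast this.ne'
    rw [cf, ih h1, inv_div]
    simp only [KK]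
    push_cast
    field_simp

end CFCx

open CFCx in
theorem cfc : CFCStm := by
  intro n a b ha han hna
  unfold IsChain VChain
  refine and_congr_right fun hb => ?_
  have h1 := bounds b hb
  rw [cf_eq b hb, run_eq]
  simp only [mul_one, mul_zero, sub_zero, Prod.mk.injEq]
  have hn : 0 < n := by omega
  constructor
  · intro h
    have hne : (KK b).2 ≠ 0 := by
      intro h0
      rw [h0] at h
      simp only [Int.cast_zero, div_zero] at h
      have : (n : ℚ) / ((n : ℚ) - a) ≠ 0 := by
        have e1 : (0 : ℚ) < n := by exact_mod_cast hn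
        have e2 : (0 : ℚ) < (n : ℚ) - a := by
          have : (a : ℚ) < n := by exact_mod_cast han
          linarith
        positivity
      exact this h.symm
    have e1 : ((KK b).2 : ℚ) ≠ 0 := by exact_mod_cast hne
    have e2 : ((n : ℚ) - a) ≠ 0 := by
      have : (a : ℚ) < n := by exact_mod_cast han
      intro h'; linarith
    rw [div_eq_div_iff e1 e2] at h
    have h' : (KK b).1 * (n - a) = n * (KK b).2 := by exact_mod_cast h
    have d1 : (KK b).1 ∣ n := by
      have : (KK b).1 ∣ n * (KK b).2 := ⟨n - a, h'.symm⟩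
      exact (cop b).dvd_of_dvd_mul_right this
    have d2 : n ∣ (KK b).1 := by
      have h3 : n ∣ (KK b).1 * (n - a) := ⟨(KK b).2, h'⟩
      have h4 : IsCoprime n (n - a) := by
        obtain ⟨x, y, hxy⟩ := hna
        exact ⟨x + y, -y, by linear_combination hxy⟩
      exact h4.dvd_of_dvd_mul_right h3
    have e : (KK b).1 = n := Int.dvd_antisymm (by omega) hn.le d1 d2
    rw [e] at h'
    have e3 : n - a = (KK b).2 := mul_left_cancel₀ hn.ne' h'
    constructor <;> omega
  · rintro ⟨h2, h3⟩
    have e1 : (KK b).2 = n - a := by omega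
    rw [h3, e1]
    push_cast
    rfl

end Pool.Agent.T6.H32.LS
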