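import Mathlib
import Pool.Agent.T6.H32.LS.Basic

/-! Module CFZ: admissible zero tuples in terms of vectors. -/

set_option autoImplicit false

namespace Pool.Agent.T6.H32.LS

namespace CFZAux

/-- the continuants `(K l, K l.tail)` -/
def kp : List ℤ → ℤ × ℤ
  | [] => (1, 0)
  | c :: l => (c * (kp l).1 - (kp l).2, (kp l).1)

theorem run_kp (l : List ℤ) (x y : ℤ × ℤ) :
    (run l x y).2 = ((kp l).1 * y.1 - (kp l).2 * x.1, (kp l).1 * y.2 - (kp l).2 * x.2) := by
  induction l generalizing x y with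
  | nil =>
    simp [run, kp]
  | cons c l ih =>
    rw [run_cons, ih]
    simp only [kp, Prod.mk.injEq]
    constructor <;> ring

/-- all the proper suffixes have positive continuants -/
def Pos (k : List ℤ) : Prop := ∀ l₁ l₂ : List ℤ, k = l₁ ++ l₂ → l₁ ≠ [] → 0 < (kp l₂).1

theorem Pos.tail {c : ℤ} {m : List ℤ} (h : Pos (c :: m)) : Pos m ∧ 0 < (kp m).1 :=
  ⟨fun l₁ l₂ h1 _ => h (c :: l₁) l₂ (by rw [h1]; rfl) (by simp), h [c] m rfl (by simp)⟩

theorem Pos.suffix {k : List ℤ} (h : Pos k) (l₁ l₂ : List ℤ) (hk : k = l₁ ++ l₂) : Pos l₂ :=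
  fun a b hab ha => h (l₁ ++ a) b (by rw [hk, hab, List.append_assoc]) (by simp [ha])

theorem cf_eq (k : List ℤ) (h : Pos k) :
    cf k = ((kp k).1 : ℚ) / ((kp k).2 : ℚ) ∧ (k ≠ [] → 0 < (kp k).2) := by
  induction k with
  | nil => simp [cf, kp]
  | cons c m ih =>
    obtain ⟨h1, h2⟩ := h.tail
    obtain ⟨h3, -⟩ := ih h1
    have h4 : ((kp m).1 : ℚ) ≠ 0 := by exact_mod_cast h2.ne'
    refine ⟨?_, fun _ => h2⟩
    simp only [cf, kp]
    rw [h3, inv_div]
    push_cast
    field_simp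

theorem pos_of_cf (k : List ℤ)
    (h : ∀ l₁ l₂ : List ℤ, k = l₁ ++ l₂ → l₁ ≠ [] → l₂ ≠ [] → 0 < cf l₂) : Pos k := by
  induction k with
  | nil =>
    intro l₁ l₂ h1 h2
    simp at h1
    exact absurd h1.1 h2
  | cons c m ih =>
    have hm : Pos m := ih fun l₁ l₂ h1 _ h3 => h (c :: l₁) l₂ (by rw [h1]; rfl) (by simp) h3
    intro l₁ l₂ h1 h2
    obtain ⟨d, l, rfl⟩ := List.exists_cons_of_ne_nil h2
    rw [List.cons_append, List.cons.injEq] at h1
    obtain ⟨rfl, h1⟩ := h1
    by_cases hl : l = []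
    · subst hl
      rw [List.nil_append] at h1
      subst h1
      by_cases hm0 : m = []
      · subst hm0
        simp [kp]
      · have h3 := h [c] m rfl (by simp) hm0
        obtain ⟨h4, h5⟩ := cf_eq m hm
        have h6 : (0 : ℚ) < ((kp m).2 : ℚ) := by exact_mod_cast h5 hm0
        rw [h4, div_pos_iff_of_pos_right h6] at h3
        exact_mod_cast h3
    · exact hm l l₂ h1 hl

theorem key (l₁ l₂ : List ℤ) (c : ℤ) (h : (run (l₁ ++ c :: l₂) x0 x1).2 = (-1, 0)) :
    (run l₁ x0 x1).2.2 = (kp l₂).1 := by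
  have h1 := br_run l₁ x0 x1
  have h2 : br x0 x1 = 1 := by simp [br]
  rw [h2] at h1
  rw [run_append, run_kp] at h
  simp only [Prod.mk.injEq] at h
  obtain ⟨h3, h4⟩ := h
  simp only [kp] at h3 h4
  simp only [br] at h1
  linear_combination (run l₁ x0 x1).2.2 * h3 - (run l₁ x0 x1).2.1 * h4 + (kp l₂).1 * h1

end CFZAux

open CFZAux

theorem cfz : CFZStm := by
  intro k
  constructor
  · rintro ⟨hk, h0, hp⟩
    have hP := pos_of_cf k hp
    obtain ⟨h1, h2⟩ := cf_eq k hP
    have h3 := h2 hk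
    have h4 : (0 : ℚ) < ((kp k).2 : ℚ) := by exact_mod_cast h3
    rw [h1, div_eq_zero_iff] at h0
    have h5 : (kp k).1 = 0 := by
      rcases h0 with h | h
      · exact_mod_cast h
      · exact absurd h h4.ne'
    have h6 := br_run k x0 x1
    have h7 : br x0 x1 = 1 := by simp [br]
    have h8 := run_kp k x0 x1
    rw [h5] at h8
    have h9 : (run k x0 x1).2 = (-(kp k).2, 0) := by
      rw [h8]
      simp
    have h10 : (run k x0 x1).1.2 * (kp k).2 = 1 := by
      rw [h7, h9] at h6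
      simp only [br] at h6
      linarith
    have h11 : (kp k).2 = 1 := by
      rcases Int.eq_one_or_neg_one_of_mul_eq_one (by rw [mul_comm] at h10; exact h10) with h | h
      · exact h
      · omega
    have h12 : (run k x0 x1).2 = (-1, 0) := by rw [h9, h11]
    refine ⟨hk, h12, ?_⟩
    intro l₁ c l₂ hl
    rw [hl] at h12
    rw [key l₁ l₂ c h12]
    exact hP (l₁ ++ [c]) l₂ (by rw [hl]; simp) (by simp)
  · rintro ⟨hk, h0, hp⟩
    have hP : Pos k := by
      intro l₁ l₂ h1 h2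
      have h3 : l₁ = l₁.dropLast ++ [l₁.getLast h2] := (List.dropLast_append_getLast h2).symm
      have h4 : k = l₁.dropLast ++ l₁.getLast h2 :: l₂ := by
        rw [h1]
        nth_rewrite 1 [h3]
        simp
      have h5 := hp _ _ _ h4
      rw [h4] at h0
      rwa [key _ _ _ h0] at h5
    have h1 := run_kp k x0 x1
    rw [h0] at h1
    simp only [Prod.mk.injEq] at h1
    have h2 : (kp k).1 = 0 := by
      have := h1.2
      linarith
    refine ⟨hk, ?_, ?_⟩
    · rw [(cf_eq k hP).1, h2]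
      simp
    · intro l₁ l₂ hl h3 h4
      obtain ⟨h5, h6⟩ := cf_eq l₂ (hP.suffix l₁ l₂ hl)
      have h7 : (0 : ℚ) < ((kp l₂).2 : ℚ) := by exact_mod_cast h6 h4
      have h8 : (0 : ℚ) < ((kp l₂).1 : ℚ) := by exact_mod_cast hP l₁ l₂ hl h3
      rw [h5]
      positivity

end Pool.Agent.T6.H32.LS
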