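import Pool.Agent.T6.H32.LS.Basic

/-! Module DEC. -/

set_option autoImplicit false

namespace Pool.Agent.T6.H32.LS
namespace ModDEC

theorem br01 : br x0 x1 = 1 := by simp [br]

theorem cop_run (l : List ℤ) : IsCoprime (run l x0 x1).2.1 (run l x0 x1).2.2 := by
  have h := br_run l x0 x1
  rw [br01] at h
  refine ⟨-(run l x0 x1).1.2, (run l x0 x1).1.1, ?_⟩
  simp only [br] at h
  linear_combination h

theorem pos_trans (a b c : ℤ × ℤ) (ha : 0 < a.2) (hb : 0 < b.2) (hc : 0 < c.2)
    (h1 : 0 < br a b) (h2 : 0 < br b c) : 0 < br a c := by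
  have h : br a c * b.2 = br a b * c.2 + br b c * a.2 := by
    simp only [br]; ring
  have h3 : 0 < br a c * b.2 := by rw [h]; positivity
  exact pos_of_mul_pos_left h3 hb.le

theorem pos_chain (u : ℤ × ℤ) (hu : 0 < u.2) : ∀ (l : List ℤ) (x y : ℤ × ℤ), br x y = 1 →
    0 < y.2 → 0 < br u y →
    (∀ (l' : List ℤ) (c : ℤ) (l'' : List ℤ), l = l' ++ c :: l'' →
      0 < (run (l' ++ [c]) x y).2.2) → 0 < br u (run l x y).2 := by
  intro l
  induction l with
  | nil => intro x y _ _ h _; exact h
  | cons c l ih =>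
    intro x y hxy hy huy hpos
    rw [run_cons]
    have hw : 0 < (c * y.1 - x.1, c * y.2 - x.2).2 := by
      have := hpos [] c l rfl
      simpa [run] using this
    have hyw : br y (c * y.1 - x.1, c * y.2 - x.2) = 1 := by
      rw [← hxy]; simp only [br]; ring
    refine ih y _ hyw hw (pos_trans u y _ hu hy hw huy (by rw [hyw]; norm_num)) ?_
    intro l' c' l'' h
    have := hpos (c :: l') c' l'' (by rw [h]; rfl)
    rwa [List.cons_append, run_cons] at this

end ModDEC

open ModDEC in
theorem dec : DECStm := by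
  intro n a k u v hF
  obtain ⟨⟨hk, hz, hp⟩, hF⟩ := hF
  rcases hF with ⟨l₁, l₂, l₃, c, d, hkeq, hV, hu, hv⟩ | ⟨l₁, l₂, c, hkeq, hV, hu, huv⟩
  · have hupos : 0 < u.2 := by rw [← hu]; exact hp l₁ c _ hkeq
    have hvpos : 0 < v.2 := by
      rw [← hv]
      exact hp (l₁ ++ c :: l₂) d l₃ (by rw [hkeq]; simp)
    refine ⟨?_, ?_, hupos, hvpos, ?_, ?_⟩
    · rw [← hu]; exact cop_run l₁
    · rw [← hv]; exact cop_run _
    · apply le_of_lt
      rw [← hv, run_append, run_cons, hu]
      have hxy : br (run l₁ x0 x1).1 u = 1 := by rw [← hu, br_run, br01]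
      have hyw : br u (c * u.1 - (run l₁ x0 x1).1.1, c * u.2 - (run l₁ x0 x1).1.2) = 1 := by
        rw [← hxy]; simp only [br]; ring
      have hw : ∀ l' c' l'', l₂ ++ [d] = l' ++ c' :: l'' →
          0 < (run l' u (c * u.1 - (run l₁ x0 x1).1.1, c * u.2 - (run l₁ x0 x1).1.2)).2.2 := by
        intro l' c' l'' h
        have h2 := hp (l₁ ++ c :: l') c' (l'' ++ l₃) (by
          rw [hkeq]
          have : l₂ ++ d :: l₃ = (l₂ ++ [d]) ++ l₃ := by simp
          rw [this, h]; simp)
        rw [run_append, run_cons, hu] at h2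
        exact h2
      have hw0 : 0 < (c * u.1 - (run l₁ x0 x1).1.1, c * u.2 - (run l₁ x0 x1).1.2).2 := by
        cases hl : l₂ with
        | nil =>
          have := hw [] d [] (by rw [hl])
          simpa [run] using this
        | cons e l =>
          have := hw [] e (l ++ [d]) (by rw [hl]; simp)
          simpa [run] using this
      refine pos_chain u hupos l₂ u _ hyw hw0 (by rw [hyw]; norm_num) ?_
      intro l' c' l'' h
      cases l'' with
      | nil => exact hw (l' ++ [c']) d [] (by rw [h])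
      | cons e l => exact hw (l' ++ [c']) e (l ++ [d]) (by rw [h]; simp)
    · have h2 := hV.2
      rw [run_raise l₁ _ c x0 x1 br01] at h2
      have e1 : l₁ ++ c :: (l₂ ++ (d + 1) :: l₃) = (l₁ ++ c :: l₂) ++ (d + 1) :: l₃ := by simp
      have e2 : l₁ ++ c :: (l₂ ++ d :: l₃) = (l₁ ++ c :: l₂) ++ d :: l₃ := by simp
      rw [e1, run_raise (l₁ ++ c :: l₂) l₃ d x0 x1 br01, ← e2, ← hkeq] at h2
      simp only [hu, hv, hz] at h2
      exact h2
  · subst huv
    have hupos : 0 < u.2 := by rw [← hu]; exact hp l₁ c _ hkeq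
    refine ⟨?_, ?_, hupos, hupos, ?_, ?_⟩
    · rw [← hu]; exact cop_run l₁
    · rw [← hu]; exact cop_run l₁
    · apply le_of_eq; simp only [br]; ring
    · have h2 := hV.2
      rw [show c + 2 = (c + 1) + 1 by ring, run_raise l₁ _ (c + 1) x0 x1 br01,
        run_raise l₁ _ c x0 x1 br01, ← hkeq] at h2
      simp only [hu, hz] at h2
      exact h2

end Pool.Agent.T6.H32.LS
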