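import Pool.Agent.T6.H32.LS.Basic

/-! Module EXA. -/

set_option autoImplicit false

namespace Pool.Agent.T6.H32.LS
namespace ModEXA

theorem cop_of_br {w w' : ℤ × ℤ} (h : br w w' = 1) : IsCoprime w'.1 w'.2 := by
  refine ⟨-w.2, w.1, ?_⟩
  simp only [br] at h
  linear_combination h

theorem exa_aux : ∀ (m : ℕ) (w w' : ℤ × ℤ), IsCoprime w.1 w.2 → IsCoprime w'.1 w'.2 →
    0 < br w w' → br w w' ≤ (m : ℤ) →
    ∃ (l : List ℤ) (w₁ : ℤ × ℤ), (∀ c ∈ l, 2 ≤ c) ∧ br w w₁ = 1 ∧ (run l w w₁).2 = w' ∧
      ∀ (l₁ : List ℤ) (c : ℤ) (l₂ : List ℤ), l = l₁ ++ c :: l₂ →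
        0 < br w (run l₁ w w₁).2 ∧ 0 < br (run l₁ w w₁).2 w' := by
  intro m
  induction m with
  | zero => intro w w' _ _ h1 h2; push_cast at h2; omega
  | succ m ih =>
    intro w w' hw hw' hpos hle
    by_cases h1 : br w w' = 1
    · refine ⟨[], w', by simp, h1, rfl, ?_⟩
      intro l₁ c l₂ h
      simp at h
    · obtain ⟨a, b, hab⟩ := hw
      -- a vector with determinant one
      let j : ℤ := -(br (-b, a) w' / br w w')
      let w₁ : ℤ × ℤ := (-b + j * w.1, a + j * w.2)
      have hw1 : br w w₁ = 1 := by
        simp only [br, w₁]; linear_combination hab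
      have hm1 : br w₁ w' = br (-b, a) w' % br w w' := by
        have e : br w₁ w' = br (-b, a) w' + j * br w w' := by
          simp only [br, w₁]; ring
        rw [e]
        have := Int.emod_add_mul_ediv (br (-b, a) w') (br w w')
        simp only [j]
        linear_combination -this
      have h0 : 0 ≤ br w₁ w' := by rw [hm1]; exact Int.emod_nonneg _ hpos.ne'
      have hlt : br w₁ w' < br w w' := by rw [hm1]; exact Int.emod_lt_of_pos _ hpos
      have hne : br w₁ w' ≠ 0 := by
        intro hz
        have e1 : w'.1 = br w w' * w₁.1 := by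
          have : w'.1 * br w w₁ = br w w' * w₁.1 - br w₁ w' * w.1 := by
            simp only [br]; ring
          rw [hw1, hz] at this
          linear_combination this
        have e2 : w'.2 = br w w' * w₁.2 := by
          have : w'.2 * br w w₁ = br w w' * w₁.2 - br w₁ w' * w.2 := by
            simp only [br]; ring
          rw [hw1, hz] at this
          linear_combination this
        have hu : IsUnit (br w w') :=
          IsCoprime.isUnit_of_dvd' hw' ⟨_, e1⟩ ⟨_, e2⟩
        rcases Int.isUnit_iff.mp hu with h | h
        · exact h1 h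
        · omega
      have hc1 : IsCoprime w₁.1 w₁.2 := cop_of_br hw1
      obtain ⟨l', w₂, hl', hw2, hrun, hp⟩ := ih w₁ w' hc1 hw' (by omega) (by push_cast at hle; omega)
      have e1 : w₂.1 = br w w₂ * w₁.1 - w.1 := by
        have : w₂.1 * br w w₁ = br w w₂ * w₁.1 - br w₁ w₂ * w.1 := by
          simp only [br]; ring
        rw [hw1, hw2] at this
        linear_combination this
      have e2 : w₂.2 = br w w₂ * w₁.2 - w.2 := by
        have : w₂.2 * br w w₁ = br w w₂ * w₁.2 - br w₁ w₂ * w.2 := by
          simp only [br]; ring
        rw [hw1, hw2] at this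
        linear_combination this
      have hw2e : (br w w₂ * w₁.1 - w.1, br w w₂ * w₁.2 - w.2) = w₂ := by
        rw [← e1, ← e2]
      have hnn : 0 ≤ br w₂ w' := by
        cases hl : l' with
        | nil =>
          rw [hl] at hrun
          have : w₂ = w' := hrun
          rw [this]; apply le_of_eq; simp only [br]; ring
        | cons c' l'' =>
          exact (hp [] c' l'' (by rw [hl]; rfl)).2.le
      have hrel : br w w' = br w w₂ * br w₁ w' - br w₂ w' := by
        have : br w w' * br w₁ w₂ = br w w₂ * br w₁ w' - br w w₁ * br w₂ w' := by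
          simp only [br]; ring
        rw [hw1, hw2] at this
        linear_combination this
      have hc2 : 2 ≤ br w w₂ := by
        by_contra hcon
        have h3 : br w w₂ ≤ 1 := by omega
        have h4 : br w w₂ * br w₁ w' ≤ 1 * br w₁ w' := mul_le_mul_of_nonneg_right h3 h0
        omega
      refine ⟨br w w₂ :: l', w₁, ?_, hw1, ?_, ?_⟩
      · intro c hc
        rw [List.mem_cons] at hc
        rcases hc with rfl | hc
        · exact hc2
        · exact hl' c hc
      · rw [run_cons, hw2e]; exact hrun
      · intro l₁ c l₂ h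
        cases l₁ with
        | nil =>
          simp only [run_nil]
          exact ⟨by rw [hw1]; norm_num, by omega⟩
        | cons x t =>
          simp only [List.cons_append, List.cons.injEq] at h
          obtain ⟨hx, ht⟩ := h
          subst hx
          rw [run_cons, hw2e]
          obtain ⟨q1, q2⟩ := hp t c l₂ ht
          refine ⟨?_, q2⟩
          have hpl := plucker w w₁ (run t w₁ w₂).2 w'
          rw [hw1] at hpl
          have h5 : 0 < br w (run t w₁ w₂).2 * br w₁ w' := by
            have : br w (run t w₁ w₂).2 * br w₁ w' =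
                br (run t w₁ w₂).2 w' + br w w' * br w₁ (run t w₁ w₂).2 := by
              linear_combination -hpl
            rw [this]; positivity
          exact pos_of_mul_pos_left h5 h0

end ModEXA

open ModEXA in
theorem exa : EXAStm := by
  intro w w' h1 h2 h3
  exact exa_aux (br w w').toNat w w' h1 h2 h3 (by rw [Int.toNat_of_nonneg h3.le])

end Pool.Agent.T6.H32.LS
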