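import Pool.Agent.T6.H32.LS.Basic

/-! Module EXB. -/

set_option autoImplicit false

namespace Pool.Agent.T6.H32.LS

namespace ModEXB

/-- all vectors before the last one have positive second coordinate -/
def Pos : List ℤ → ℤ × ℤ → ℤ × ℤ → Prop
  | [], _, _ => True
  | c :: l, x, y => 0 < y.2 ∧ Pos l y (c * y.1 - x.1, c * y.2 - x.2)

theorem pos_iff (l : List ℤ) (x y : ℤ × ℤ) : Pos l x y ↔
    ∀ (l₁ : List ℤ) (c : ℤ) (l₂ : List ℤ), l = l₁ ++ c :: l₂ → 0 < (run l₁ x y).2.2 := by
  induction l generalizing x y with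
  | nil =>
    constructor
    · intro _ l₁ c l₂ h
      exact absurd h.symm (by simp)
    · intro _
      trivial
  | cons e l ih =>
    constructor
    · rintro ⟨h0, h1⟩ l₁ c l₂ h
      cases l₁ with
      | nil => exact h0
      | cons e' l₁ =>
        rw [List.cons_append, List.cons.injEq] at h
        obtain ⟨rfl, h⟩ := h
        rw [run_cons]
        exact (ih _ _).1 h1 l₁ c l₂ h
    · intro h
      refine ⟨h [] e l rfl, (ih _ _).2 fun l₁ c l₂ hl => ?_⟩
      have := h (e :: l₁) c l₂ (by rw [hl]; rfl)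
      rwa [run_cons] at this

theorem pos_append (l l' : List ℤ) (x y : ℤ × ℤ) :
    Pos (l ++ l') x y ↔ Pos l x y ∧ Pos l' (run l x y).1 (run l x y).2 := by
  induction l generalizing x y with
  | nil => simp [Pos, run_nil]
  | cons c l ih =>
    rw [List.cons_append, run_cons]
    simp only [Pos]
    rw [ih, and_assoc]

theorem pos_fst {l : List ℤ} {x y : ℤ × ℤ} (h : Pos l x y) (hx : 0 ≤ x.2) :
    0 ≤ (run l x y).1.2 := by
  induction l generalizing x y with
  | nil => exact hx
  | cons c l ih => exact ih h.2 h.1.le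

theorem pos_fst' {l : List ℤ} {x y : ℤ × ℤ} (h : Pos l x y) (hx : 0 < x.2) :
    0 < (run l x y).1.2 := by
  induction l generalizing x y with
  | nil => exact hx
  | cons c l ih => exact ih h.2 h.1

theorem pos_snd {l : List ℤ} {x y : ℤ × ℤ} (h : Pos l x y) (hx : 0 ≤ (run l x y).2.2) :
    0 ≤ y.2 := by
  cases l with
  | nil => exact hx
  | cons c l => exact h.1.le

theorem pos_snd' {l : List ℤ} {x y : ℤ × ℤ} (h : Pos l x y) (hx : 0 < (run l x y).2.2) :
    0 < y.2 := by
  cases l with
  | nil => exact hx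
  | cons c l => exact h.1

theorem cramer (x y z : ℤ × ℤ) (h : br x y = 1) (h' : br y z = 1) :
    (br x z * y.1 - x.1, br x z * y.2 - x.2) = z := by
  have e1 := h
  have e2 := h'
  simp only [br] at e1 e2 ⊢
  ext
  · simp only []
    linear_combination z.1 * e1 + x.1 * e2
  · simp only []
    linear_combination z.2 * e1 + x.2 * e2

/-- entries at least two: the determinants with the last vector decrease -/
theorem dec (b : List ℤ) (x y : ℤ × ℤ) (h : br x y = 1) (hb : ∀ c ∈ b, 2 ≤ c) :
    0 ≤ br y (run b x y).2 ∧ br y (run b x y).2 < br x (run b x y).2 ∧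
      (b ≠ [] → 0 < br y (run b x y).2) := by
  induction b generalizing x y with
  | nil =>
    have h0 : br y y = 0 := by simp only [br]; ring
    rw [run_nil]
    simp only [h, h0]
    exact ⟨le_refl _, by norm_num, fun h => absurd rfl h⟩
  | cons c l ih =>
    have hc : 2 ≤ c := hb c (by simp)
    have h1 : br y (c * y.1 - x.1, c * y.2 - x.2) = 1 := by
      rw [← h]
      simp only [br]
      ring
    obtain ⟨i1, i2, -⟩ := ih y _ h1 (fun e he => hb e (by simp [he]))
    rw [run_cons]
    set z := (run l y (c * y.1 - x.1, c * y.2 - x.2)).2 with hz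
    have h2 : br x z = c * br y z - br (c * y.1 - x.1, c * y.2 - x.2) z := by
      simp only [br]
      ring
    refine ⟨by linarith, ?_, fun _ => by linarith⟩
    rw [h2]
    nlinarith

theorem wa_eq (n a : ℤ) (ha : 0 < a) (han : a < n) (b : List ℤ) (w : ℤ × ℤ)
    (hw : br x0 w = 1) (hb : ∀ c ∈ b, 2 ≤ c) (hb0 : b ≠ [])
    (hr : (run b x0 w).2 = (a, n)) : w = x1 := by
  obtain ⟨-, h2, h3⟩ := dec b x0 w hw hb
  have h4 := h3 hb0
  rw [hr] at h2 h4
  simp only [br] at hw h2 h4
  have hw2 : w.2 = 1 := by linarith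
  rw [hw2] at h2 h4
  have hm : w.1 = 1 := by
    have h5 : a < w.1 * n := by linarith
    have h6 : w.1 * n < n + a := by linarith
    have h7 : 0 < w.1 := by
      by_contra hcon
      have : w.1 * n ≤ 0 := mul_nonpos_of_nonpos_of_nonneg (not_lt.1 hcon) (by linarith)
      linarith
    have h8 : w.1 < 2 := by
      by_contra hcon
      have : 2 * n ≤ w.1 * n := mul_le_mul_of_nonneg_right (not_lt.1 hcon) (by linarith)
      linarith
    omega
  ext
  · exact hm
  · exact hw2

theorem exa_pos (l : List ℤ) (x y : ℤ × ℤ) (h : ∀ (l₁ : List ℤ) (c : ℤ) (l₂ : List ℤ),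
    l = l₁ ++ c :: l₂ → 0 < (run l₁ x y).2.2) : Pos l x y := (pos_iff _ _ _).2 h

end ModEXB

open ModEXB

theorem exb (hA : EXAStm) : EXBStm := by
  intro n a u v ha han hD
  have cx0 : IsCoprime x0.1 x0.2 := isCoprime_one_left
  have cm : IsCoprime (-1 : ℤ) 0 := by
    rw [isCoprime_zero_right]
    exact isUnit_one.neg
  obtain ⟨la, wa, hla, ha1, ha2, ha3⟩ := hA x0 u cx0 hD.pu (by simpa [br] using hD.hu)
  have pa : Pos la x0 wa := exa_pos _ _ _ fun l₁ c l₂ h => by
    have := (ha3 l₁ c l₂ h).1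
    simpa [br] using this
  have bu : br (run la x0 wa).1 u = 1 := by
    have := br_run la x0 wa
    rw [ha2, ha1] at this
    exact this
  have um : 0 ≤ (run la x0 wa).1.2 := pos_fst pa (le_refl _)
  have hu0 := hD.hu
  have hv0 := hD.hv
  obtain ⟨lc, wc, hlc, hc1, hc2, hc3⟩ := hA v (-1, 0) hD.pv cm (by simpa [br] using hD.hv)
  have pc : Pos lc v wc := exa_pos _ _ _ fun l₁ c l₂ h => by
    have := (hc3 l₁ c l₂ h).2
    simpa [br] using this
  have wc0 : 0 ≤ wc.2 := pos_snd pc (by rw [hc2])
  rcases hD.huv.lt_or_eq with huv | huv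
  · obtain ⟨lb, wb, hlb, hb1, hb2, hb3⟩ := hA u v hD.pu hD.pv huv
    have pb : Pos lb u wb := exa_pos _ _ _ fun l₁ c l₂ h => by
      obtain ⟨h1, h2⟩ := hb3 l₁ c l₂ h
      have h3 : br u v * (run l₁ u wb).2.2 = br (run l₁ u wb).2 v * u.2 +
          br u (run l₁ u wb).2 * v.2 := by
        simp only [br]
        ring
      have h4 : 0 < br u v * (run l₁ u wb).2.2 := by
        rw [h3]
        positivity
      exact (mul_pos_iff_of_pos_left huv).1 h4
    have wb0 : 0 < wb.2 := pos_snd' pb (by rw [hb2]; exact hv0)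
    have bv : br (run lb u wb).1 v = 1 := by
      have := br_run lb u wb
      rw [hb2, hb1] at this
      exact this
    have vm : 0 < (run lb u wb).1.2 := pos_fst' pb hu0
    set c := br (run la x0 wa).1 wb with hc
    set d := br (run lb u wb).1 wc with hd
    have ec := cramer _ _ _ bu hb1
    have ed := cramer _ _ _ bv hc1
    rw [← hc] at ec
    rw [← hd] at ed
    have r1 : run (la ++ c :: lb) x0 wa = run lb u wb := by
      rw [run_append, ha2, run_cons, ec]
    have r2 : run (la ++ c :: (lb ++ d :: lc)) x0 wa = run lc v wc := by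
      rw [run_append, ha2, run_cons, ec, run_append, hb2, run_cons, ed]
    have c1 : 1 ≤ c := by
      have h1 : c * u.2 - (run la x0 wa).1.2 = wb.2 := congrArg Prod.snd ec
      have h2 : 0 < c * u.2 := by linarith
      have := (mul_pos_iff_of_pos_right hu0).1 h2
      omega
    have d1 : 1 ≤ d := by
      have h1 : d * v.2 - (run lb u wb).1.2 = wc.2 := congrArg Prod.snd ed
      have h2 : 0 < d * v.2 := by linarith
      have := (mul_pos_iff_of_pos_right hv0).1 h2
      omega
    have hb : ∀ e ∈ la ++ (c + 1) :: (lb ++ (d + 1) :: lc), 2 ≤ e := by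
      intro e he
      simp only [List.mem_append, List.mem_cons] at he
      rcases he with he | rfl | he | rfl | he
      · exact hla e he
      · linarith
      · exact hlb e he
      · linarith
      · exact hlc e he
    have hrun : (run (la ++ (c + 1) :: (lb ++ (d + 1) :: lc)) x0 wa).2 = (a, n) := by
      rw [run_raise _ _ _ _ _ ha1, ha2]
      have e1 : la ++ c :: (lb ++ (d + 1) :: lc) = (la ++ c :: lb) ++ (d + 1) :: lc := by simp
      have e2 : (la ++ c :: lb) ++ d :: lc = la ++ c :: (lb ++ d :: lc) := by simp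
      rw [e1, run_raise _ _ _ _ _ ha1, r1, hb2, e2, r2, hc2]
      exact hD.eq
    have hwa : wa = x1 := wa_eq n a ha han _ wa ha1 hb (by simp) hrun
    subst hwa
    refine ⟨la ++ c :: (lb ++ d :: lc), ⟨by simp, by rw [r2, hc2], ?_⟩, Or.inl
      ⟨la, lb, lc, c, d, rfl, ⟨hb, hrun⟩, ha2, by rw [r1, hb2]⟩⟩
    rw [← pos_iff, pos_append]
    refine ⟨pa, ?_⟩
    rw [ha2]
    refine ⟨hu0, ?_⟩
    rw [ec, pos_append]
    refine ⟨pb, ?_⟩
    rw [hb2]
    refine ⟨hv0, ?_⟩
    rw [ed]
    exact pc
  · have huv' : u = v := by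
      have h0 : u.1 * v.2 = u.2 * v.1 := by
        have := huv
        simp only [br] at this
        linarith
      have d1 : u.2 ∣ v.2 := by
        have : u.2 ∣ u.1 * v.2 := ⟨v.1, h0⟩
        exact hD.pu.symm.dvd_of_dvd_mul_left this
      have d2 : v.2 ∣ u.2 := by
        have : v.2 ∣ v.1 * u.2 := ⟨u.1, by linarith⟩
        exact hD.pv.symm.dvd_of_dvd_mul_left this
      have h2 : u.2 = v.2 := Int.dvd_antisymm hu0.le hv0.le d1 d2
      ext
      · rw [h2] at h0
        exact mul_right_cancel₀ hv0.ne' (by linarith)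
      · exact h2
    subst huv'
    set c := br (run la x0 wa).1 wc with hc
    have ec := cramer _ _ _ bu hc1
    rw [← hc] at ec
    have r2 : run (la ++ c :: lc) x0 wa = run lc u wc := by
      rw [run_append, ha2, run_cons, ec]
    have c1 : 0 ≤ c := by
      have h1 : c * u.2 - (run la x0 wa).1.2 = wc.2 := congrArg Prod.snd ec
      have h2 : 0 ≤ c * u.2 := by linarith
      exact nonneg_of_mul_nonneg_left h2 hu0
    have hb : ∀ e ∈ la ++ (c + 2) :: lc, 2 ≤ e := by
      intro e he
      simp only [List.mem_append, List.mem_cons] at he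
      rcases he with he | rfl | he
      · exact hla e he
      · linarith
      · exact hlc e he
    have hrun : (run (la ++ (c + 2) :: lc) x0 wa).2 = (a, n) := by
      rw [show c + 2 = (c + 1) + 1 by ring, run_raise _ _ _ _ _ ha1, ha2,
        run_raise _ _ _ _ _ ha1, ha2, r2, hc2]
      exact hD.eq
    have hwa : wa = x1 := wa_eq n a ha han _ wa ha1 hb (by simp) hrun
    subst hwa
    refine ⟨la ++ c :: lc, ⟨by simp, by rw [r2, hc2], ?_⟩, Or.inr
      ⟨la, lc, c, rfl, ⟨hb, hrun⟩, ha2, rfl⟩⟩
    rw [← pos_iff, pos_append]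
    refine ⟨pa, ?_⟩
    rw [ha2]
    refine ⟨hu0, ?_⟩
    rw [ec]
    exact pc

end Pool.Agent.T6.H32.LS
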