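import Mathlib
import Pool.Agent.T6.H32.LS.Defs

/-! MP_7470a2_gt (helper32): assembly. -/

set_option autoImplicit false

namespace Pool.Agent.T6.H32.LS

theorem quad_br {r s d : ℤ} {u v u' v' : ℤ × ℤ} (h : Quad r s d u v u' v') : br u u' = s := by
  obtain ⟨hr, hs, hd, hb, hq, e1, e2, e3, e4⟩ := h
  have : d * (br u u' - s) = 0 := by
    simp only [br] at hb ⊢
    linear_combination u.1 * e4 - u.2 * e3 + s * hb
  rcases mul_eq_zero.1 this with h | h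
  · omega
  · linarith

theorem quad_ne {r s d : ℤ} {u v u' v' : ℤ × ℤ} (h : Quad r s d u v u' v') : u ≠ u' := by
  intro hu
  have h1 := quad_br h
  rw [← hu] at h1
  have h2 : br u u = 0 := by simp only [br]; ring
  have := h.2.1
  omega

theorem quad_lt {r s d : ℤ} (hr : 0 < r) (hs : 0 < s) (hd : 0 < d)
    (h : r ^ 2 + s ^ 2 + d * r * s = d ^ 2) : r < d := by
  by_contra hc
  push Not at hc
  have h1 : d ^ 2 ≤ r ^ 2 := by nlinarith
  have h2 : 0 < d * r * s := by positivity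
  have h3 : 0 < s ^ 2 := by positivity
  omega

/-- two decompositions with the same second coordinates are equal -/
theorem eq_of_snd (hA : ALGStm) {n a : ℤ} {u v u' v' : ℤ × ℤ} (h : Dec n a u v)
    (h' : Dec n a u' v') (hM : SameM u v u' v') (hu : u'.2 = u.2) (hv : v'.2 = v.2) :
    u = u' ∧ v = v' := by
  rcases hA n a u v u' v' h h' hM with h1 | ⟨r, s, d, hq⟩ | ⟨r, s, d, hq⟩
  · exact h1
  · exfalso
    obtain ⟨hr, hs, hd, hb, hq0, e1, e2, e3, e4⟩ := hq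
    have hlt := quad_lt hr hs hd hq0
    rw [hv] at e2
    have h1 : (d - r) * v.2 + s * u.2 = 0 := by linarith
    have h2 : 0 < (d - r) * v.2 := mul_pos (by linarith) h.hv
    have h3 : 0 < s * u.2 := mul_pos hs h.hu
    omega
  · exfalso
    obtain ⟨hr, hs, hd, hb, hq0, e1, e2, e3, e4⟩ := hq
    have hlt := quad_lt hr hs hd hq0
    rw [← hv] at e2
    have h1 : (d - r) * v'.2 + s * u'.2 = 0 := by linarith
    have h2 : 0 < (d - r) * v'.2 := mul_pos (by linarith) h'.hv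
    have h3 : 0 < s * u'.2 := mul_pos hs h'.hu
    omega

theorem sameM_trans {u v u' v' u'' v'' : ℤ × ℤ} (h : SameM u v u' v') (h' : SameM u v u'' v'') :
    SameM u' v' u'' v'' := fun x => (h x).symm.trans (h' x)

theorem filling_iff (hCZ : CFZStm) (hCC : CFCStm) (hL : LISTStm) {n a : ℤ} (ha : 0 < a)
    (han : a < n) (hc : IsCoprime n a) (k : List ℤ) :
    Filling n a k ↔ ∃ u v, Fil n a k u v := by
  constructor
  · rintro ⟨hz, b, hb, hle, hsum⟩
    rw [hCZ] at hz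
    rw [hCC n a b ha han hc] at hb
    rcases (hL k b).1 ⟨hle, hsum⟩ with ⟨l₁, l₂, l₃, c, d, h1, h2⟩ | ⟨l₁, l₂, c, h1, h2⟩
    · rw [h2] at hb
      exact ⟨_, _, hz, Or.inl ⟨l₁, l₂, l₃, c, d, h1, hb, rfl, rfl⟩⟩
    · rw [h2] at hb
      exact ⟨_, _, hz, Or.inr ⟨l₁, l₂, c, h1, hb, rfl, rfl⟩⟩
  · rintro ⟨u, v, hz, h⟩
    refine ⟨(hCZ k).2 hz, ?_⟩
    rcases h with ⟨l₁, l₂, l₃, c, d, h1, h2, -, -⟩ | ⟨l₁, l₂, c, h1, h2, -, -⟩
    · exact ⟨_, (hCC n a _ ha han hc).2 h2, (hL k _).2 (Or.inl ⟨l₁, l₂, l₃, c, d, h1, rfl⟩)⟩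
    · exact ⟨_, (hCC n a _ ha han hc).2 h2, (hL k _).2 (Or.inr ⟨l₁, l₂, c, h1, rfl⟩)⟩

theorem fin (hCZ : CFZStm) (hCC : CFCStm) (hL : LISTStm) (hD : DECStm) (hS : SAMStm)
    (hI : INJStm) (hE : EXBStm) (hR : REVStm) (hA : ALGStm) (hT : THRStm) (hP : PARStm) :
    FINStm := by
  intro n a ha han hc
  rw [← hP n a ha han]
  have hfil : ∀ k, Filling n a k ↔ ∃ u v, Fil n a k u v := filling_iff hCZ hCC hL ha han hc
  constructor
  · rintro ⟨k, k', hk, hk', hne, -⟩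
    -- a symmetric statement
    have key : ∀ (k k' : List ℤ) (u v u' v' : ℤ × ℤ) (r s d : ℤ), Fil n a k u v →
        Fil n a k' u' v' → ¬ Same n a k k' → Quad r s d u v u' v' →
        ∃ (r s d : ℤ) (u v u' v' : ℤ × ℤ), Dec n a u v ∧ Dec n a u' v' ∧
          Quad r s d u v u' v' ∧ ¬ (u'.2 = v.2 ∧ v'.2 = u.2 ∧ n ∣ a ^ 2 - 1) := by
      intro k k' u v u' v' r s d hf hf' hns hq
      refine ⟨r, s, d, u, v, u', v', hD _ _ _ _ _ hf, hD _ _ _ _ _ hf', hq, ?_⟩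
      rintro ⟨h1, h2, h3⟩
      obtain ⟨u'', v'', hf'', h4, h5⟩ := hR n a k u v ha han h3 hf
      have hM : SameM u'' v'' u' v' := hS _ _ _ _ _ _ _ _ hf'' hf'
      have h6 := eq_of_snd hA (hD _ _ _ _ _ hf'') (hD _ _ _ _ _ hf') hM (by rw [h1, h4])
        (by rw [h2, h5])
      have h7 := (hI n a _ _ _ _ _ _ hf'' hf').2 h6
      exact hns (Or.inr ⟨h3, h7.symm⟩)
    obtain ⟨u, v, hf⟩ := (hfil k).1 hk
    obtain ⟨u', v', hf'⟩ := (hfil k').1 hk'
    have hM : SameM u v u' v' := hS _ _ _ _ _ _ _ _ hf hf'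
    rcases hA n a u v u' v' (hD _ _ _ _ _ hf) (hD _ _ _ _ _ hf') hM with h1 | ⟨r, s, d, hq⟩ |
      ⟨r, s, d, hq⟩
    · exact absurd (Or.inl ((hI n a _ _ _ _ _ _ hf hf').2 h1)) hne
    · exact key k k' u v u' v' r s d hf hf' hne hq
    · refine key k' k u' v' u v r s d hf' hf ?_ hq
      rintro (h | ⟨h, h'⟩)
      · exact hne (Or.inl h.symm)
      · exact hne (Or.inr ⟨h, by rw [h', List.reverse_reverse]⟩)
  · rintro ⟨r, s, d, u, v, u', v', hd, hd', hq, hno⟩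
    obtain ⟨k, hf⟩ := hE n a u v ha han hd
    obtain ⟨k', hf'⟩ := hE n a u' v' ha han hd'
    have hkk : k ≠ k' := by
      intro h
      exact quad_ne hq ((hI n a _ _ _ _ _ _ hf hf').1 h).1
    refine ⟨k, k', (hfil k).2 ⟨u, v, hf⟩, (hfil k').2 ⟨u', v', hf'⟩, ?_, ?_⟩
    · rintro (h | ⟨h, h'⟩)
      · exact hkk h
      · obtain ⟨u'', v'', hf'', h4, h5⟩ := hR n a k u v ha han h hf
        have h6 := (hI n a _ _ _ _ _ _ hf' hf'').1 h'
        rw [← h6.1] at h4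
        rw [← h6.2] at h5
        exact hno ⟨h4, h5, h⟩
    · intro k'' hk''
      obtain ⟨u'', v'', hf''⟩ := (hfil k'').1 hk''
      have hM : SameM u v u' v' := hS _ _ _ _ _ _ _ _ hf hf'
      have hM' : SameM u v u'' v'' := hS _ _ _ _ _ _ _ _ hf hf''
      rcases hT n a u v u' v' u'' v'' hd hd' (hD _ _ _ _ _ hf'') hM hM' with h | h | h
      · exact absurd h.1 (quad_ne hq)
      · exact Or.inl (Or.inl ((hI n a _ _ _ _ _ _ hf hf'').2 h))
      · exact Or.inr (Or.inl ((hI n a _ _ _ _ _ _ hf' hf'').2 h))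

end Pool.Agent.T6.H32.LS
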