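import Pool.Agent.T6.H32.LS.Basic

/-! Module INJ. -/

set_option autoImplicit false

namespace Pool.Agent.T6.H32.LS
namespace ModINJ

theorem br01 : br x0 x1 = 1 := by simp [br]

theorem split_eq : ∀ (l l' : List ℤ) (c c' e e' : ℤ) (m m' M M' : List ℤ), c ≠ e → c' ≠ e' →
    l ++ c :: m = l' ++ c' :: m' → l ++ e :: M = l' ++ e' :: M' →
    l = l' ∧ c = c' ∧ e = e' ∧ m = m' ∧ M = M' := by
  intro l
  induction l with
  | nil =>
    intro l' c c' e e' m m' M M' h1 h2 h3 h4
    cases l' with
    | nil =>
      simp only [List.nil_append, List.cons.injEq] at h3 h4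
      exact ⟨rfl, h3.1, h4.1, h3.2, h4.2⟩
    | cons x t =>
      simp only [List.nil_append, List.cons_append, List.cons.injEq] at h3 h4
      exact absurd (h3.1.trans h4.1.symm) h1
  | cons x t ih =>
    intro l' c c' e e' m m' M M' h1 h2 h3 h4
    cases l' with
    | nil =>
      simp only [List.nil_append, List.cons_append, List.cons.injEq] at h3 h4
      exact absurd (h3.1.symm.trans h4.1) h2
    | cons x' t' =>
      simp only [List.cons_append, List.cons.injEq] at h3 h4
      obtain ⟨a1, a2, a3, a4, a5⟩ := ih t' c c' e e' m m' M M' h1 h2 h3.2 h4.2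
      exact ⟨by rw [h3.1, a1], a2, a3, a4, a5⟩

end ModINJ

open ModINJ in
theorem inj (hU : UNQStm) : INJStm := by
  intro n a k k' u v u' v' hF hF'
  obtain ⟨⟨-, -, -⟩, hF⟩ := hF
  obtain ⟨⟨-, -, -⟩, hF'⟩ := hF'
  have br1 : br x0 x1 = 1 := br01
  rcases hF with ⟨l₁, l₂, l₃, c, d, hk, hV, hu, hv⟩ | ⟨l₁, l₂, c, hk, hV, hu, huv⟩
  · have hTv : (run (l₁ ++ (c + 1) :: l₂) x0 x1).2 = T u v := by
      rw [run_raise l₁ l₂ c x0 x1 br1, hu, hv]
    rcases hF' with ⟨l₁', l₂', l₃', c', d', hk', hV', hu', hv'⟩ |
        ⟨l₁', l₂', c', hk', hV', hu', huv'⟩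
    · have hbb := hU _ _ x0 x1 br1 hV.1 hV'.1 (hV.2.trans hV'.2.symm)
      have hTv' : (run (l₁' ++ (c' + 1) :: l₂') x0 x1).2 = T u' v' := by
        rw [run_raise l₁' l₂' c' x0 x1 br1, hu', hv']
      constructor
      · intro hkk
        rw [hk, hk'] at hkk
        obtain ⟨a1, a2, -, a4, a5⟩ := split_eq _ _ _ _ _ _ _ _ _ _ (by omega) (by omega) hkk hbb
        obtain ⟨b1, b2, -, -, -⟩ := split_eq _ _ _ _ _ _ _ _ _ _ (by omega) (by omega) a4 a5
        subst a1 a2 b1
        exact ⟨hu.symm.trans hu', hv.symm.trans hv'⟩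
      · rintro ⟨rfl, rfl⟩
        have p1 : l₁ = l₁' := by
          apply hU _ _ x0 x1 br1 _ _ (hu.trans hu'.symm)
          · intro x hx; exact hV.1 x (by simp [hx])
          · intro x hx; exact hV'.1 x (by simp [hx])
        have p2 : l₁ ++ (c + 1) :: l₂ = l₁' ++ (c' + 1) :: l₂' := by
          apply hU _ _ x0 x1 br1 _ _ (hTv.trans hTv'.symm)
          · intro x hx
            apply hV.1 x
            simp only [List.mem_append, List.mem_cons] at hx ⊢
            tauto
          · intro x hx
            apply hV'.1 x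
            simp only [List.mem_append, List.mem_cons] at hx ⊢
            tauto
        subst p1
        have p3 := List.append_cancel_left p2
        simp only [List.cons.injEq] at p3
        obtain ⟨p4, p5⟩ := p3
        subst p5
        have p6 : c = c' := by omega
        subst p6
        have p7 := List.append_cancel_left hbb
        simp only [List.cons.injEq, true_and] at p7
        have p8 := List.append_cancel_left p7
        simp only [List.cons.injEq] at p8
        obtain ⟨p9, p10⟩ := p8
        have p11 : d = d' := by omega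
        rw [hk, hk', p11, p10]
    · have hbb := hU _ _ x0 x1 br1 hV.1 hV'.1 (hV.2.trans hV'.2.symm)
      constructor
      · intro hkk
        exfalso
        rw [hk, hk'] at hkk
        obtain ⟨a1, a2, a3, a4, a5⟩ := split_eq _ _ _ _ _ _ _ _ _ _ (by omega) (by omega) hkk hbb
        omega
      · rintro ⟨rfl, rfl⟩
        exfalso
        rw [← huv', T_self] at hTv
        have p2 : l₁ ++ (c + 1) :: l₂ = l₁ := by
          apply hU _ _ x0 x1 br1 _ _ (hTv.trans hu.symm)
          · intro x hx
            apply hV.1 x
            simp only [List.mem_append, List.mem_cons] at hx ⊢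
            tauto
          · intro x hx; exact hV.1 x (by simp [hx])
        have := congrArg List.length p2
        simp at this
  · rcases hF' with ⟨l₁', l₂', l₃', c', d', hk', hV', hu', hv'⟩ |
        ⟨l₁', l₂', c', hk', hV', hu', huv'⟩
    · have hbb := hU _ _ x0 x1 br1 hV.1 hV'.1 (hV.2.trans hV'.2.symm)
      have hTv' : (run (l₁' ++ (c' + 1) :: l₂') x0 x1).2 = T u' v' := by
        rw [run_raise l₁' l₂' c' x0 x1 br1, hu', hv']
      constructor
      · intro hkk
        exfalso
        rw [hk, hk'] at hkk
        obtain ⟨a1, a2, a3, a4, a5⟩ := split_eq _ _ _ _ _ _ _ _ _ _ (by omega) (by omega) hkk hbb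
        omega
      · rintro ⟨rfl, rfl⟩
        exfalso
        rw [← huv, T_self] at hTv'
        have p2 : l₁' ++ (c' + 1) :: l₂' = l₁' := by
          apply hU _ _ x0 x1 br1 _ _ (hTv'.trans hu'.symm)
          · intro x hx
            apply hV'.1 x
            simp only [List.mem_append, List.mem_cons] at hx ⊢
            tauto
          · intro x hx; exact hV'.1 x (by simp [hx])
        have := congrArg List.length p2
        simp at this
    · have hbb := hU _ _ x0 x1 br1 hV.1 hV'.1 (hV.2.trans hV'.2.symm)
      constructor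
      · intro hkk
        rw [hk, hk'] at hkk
        obtain ⟨a1, a2, -, a4, a5⟩ := split_eq _ _ _ _ _ _ _ _ _ _ (by omega) (by omega) hkk hbb
        subst a1
        have h1 : u = u' := hu.symm.trans hu'
        exact ⟨h1, by rw [← huv, ← huv', h1]⟩
      · rintro ⟨rfl, -⟩
        have p1 : l₁ = l₁' := by
          apply hU _ _ x0 x1 br1 _ _ (hu.trans hu'.symm)
          · intro x hx; exact hV.1 x (by simp [hx])
          · intro x hx; exact hV'.1 x (by simp [hx])
        subst p1
        have p7 := List.append_cancel_left hbb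
        simp only [List.cons.injEq] at p7
        obtain ⟨p9, p10⟩ := p7
        have p11 : c = c' := by omega
        rw [hk, hk', p11, p10]

end Pool.Agent.T6.H32.LS
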