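import Mathlib
import Pool.Agent.T6.H32.LS.Basic

/-! Module LIST (helper82): lists whose sums differ by two. -/

set_option autoImplicit false

namespace Pool.Agent.T6.H32.LS

namespace LISTx

lemma sum_le {k b : List ℤ} (h : List.Forall₂ (· ≤ ·) k b) : k.sum ≤ b.sum := by
  induction h with
  | nil => simp
  | cons h1 _ ih => rw [List.sum_cons, List.sum_cons]; omega

lemma eq_of_sum {k b : List ℤ} (h : List.Forall₂ (· ≤ ·) k b) (hs : b.sum = k.sum) : k = b := by
  induction h with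
  | nil => rfl
  | @cons x y l l' h1 h2 ih =>
    rw [List.sum_cons, List.sum_cons] at hs
    have h3 := sum_le h2
    have h4 : y = x := by omega
    rw [h4, ih (by omega)]

lemma one_of_sum {k b : List ℤ} (h : List.Forall₂ (· ≤ ·) k b) (hs : b.sum = k.sum + 1) :
    ∃ (l₁ l₂ : List ℤ) (c : ℤ), k = l₁ ++ c :: l₂ ∧ b = l₁ ++ (c + 1) :: l₂ := by
  induction h with
  | nil => simp at hs
  | @cons x y l l' h1 h2 ih =>
    rw [List.sum_cons, List.sum_cons] at hs
    have h3 := sum_le h2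
    rcases eq_or_ne y x with h4 | h4
    · obtain ⟨l₁, l₂, c, e1, e2⟩ := ih (by omega)
      exact ⟨x :: l₁, l₂, c, by rw [e1]; rfl, by rw [e2, h4]; rfl⟩
    · have h5 : y = x + 1 := by omega
      have h6 := eq_of_sum h2 (by omega)
      exact ⟨[], l, x, rfl, by rw [h5, h6]; rfl⟩

lemma two_of_sum {k b : List ℤ} (h : List.Forall₂ (· ≤ ·) k b) (hs : b.sum = k.sum + 2) :
    (∃ (l₁ l₂ l₃ : List ℤ) (c d : ℤ), k = l₁ ++ c :: (l₂ ++ d :: l₃) ∧
      b = l₁ ++ (c + 1) :: (l₂ ++ (d + 1) :: l₃)) ∨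
    (∃ (l₁ l₂ : List ℤ) (c : ℤ), k = l₁ ++ c :: l₂ ∧ b = l₁ ++ (c + 2) :: l₂) := by
  induction h with
  | nil => simp at hs
  | @cons x y l l' h1 h2 ih =>
    rw [List.sum_cons, List.sum_cons] at hs
    have h3 := sum_le h2
    rcases eq_or_ne y x with h4 | h4
    · rcases ih (by omega) with ⟨l₁, l₂, l₃, c, d, e1, e2⟩ | ⟨l₁, l₂, c, e1, e2⟩
      · exact Or.inl ⟨x :: l₁, l₂, l₃, c, d, by rw [e1]; rfl, by rw [e2, h4]; rfl⟩
      · exact Or.inr ⟨x :: l₁, l₂, c, by rw [e1]; rfl, by rw [e2, h4]; rfl⟩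
    · rcases eq_or_ne y (x + 1) with h5 | h5
      · obtain ⟨l₁, l₂, c, e1, e2⟩ := one_of_sum h2 (by omega)
        exact Or.inl ⟨[], l₁, l₂, x, c, by rw [e1]; rfl, by rw [e2, h5]; rfl⟩
      · have h6 : y = x + 2 := by omega
        have h7 := eq_of_sum h2 (by omega)
        exact Or.inr ⟨[], l, x, rfl, by rw [h6, h7]; rfl⟩

lemma fa_refl (l : List ℤ) : List.Forall₂ (· ≤ ·) l l := by
  induction l with
  | nil => exact List.Forall₂.nil
  | cons x l ih => exact List.Forall₂.cons le_rfl ih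

lemma fa_append (l : List ℤ) {s t : List ℤ} (h : List.Forall₂ (· ≤ ·) s t) :
    List.Forall₂ (· ≤ ·) (l ++ s) (l ++ t) := by
  induction l with
  | nil => exact h
  | cons x l ih => exact List.Forall₂.cons le_rfl ih

end LISTx

open LISTx in
theorem listStm : LISTStm := by
  intro k b
  constructor
  · rintro ⟨h1, h2⟩
    exact two_of_sum h1 h2
  · rintro (⟨l₁, l₂, l₃, c, d, e1, e2⟩ | ⟨l₁, l₂, c, e1, e2⟩)
    · refine ⟨?_, ?_⟩
      · rw [e1, e2]
        refine fa_append _ (List.Forall₂.cons (by omega) (fa_append _ ?_))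
        exact List.Forall₂.cons (by omega) (fa_refl _)
      · rw [e1, e2]
        simp only [List.sum_append, List.sum_cons]
        ring
    · refine ⟨?_, ?_⟩
      · rw [e1, e2]
        exact fa_append _ (List.Forall₂.cons (by omega) (fa_refl _))
      · rw [e1, e2]
        simp only [List.sum_append, List.sum_cons]
        ring

end Pool.Agent.T6.H32.LS
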