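import Mathlib
import Pool.Agent.T6.H32.LS.Basic

/-! Module PARA: from two decompositions to the parameters. -/

set_option autoImplicit false

namespace Pool.Agent.T6.H32.LS

theorem para (hT : TREEStm) : ∀ n a : ℤ, 0 < a → a < n →
    (∃ (r s d : ℤ) (u v u' v' : ℤ × ℤ), Dec n a u v ∧ Dec n a u' v' ∧ Quad r s d u v u' v' ∧
      ¬ (u'.2 = v.2 ∧ v'.2 = u.2 ∧ n ∣ a ^ 2 - 1)) → Param n a := by
  rintro n a ha han ⟨r, s, d, ⟨u1, u2⟩, ⟨v1, v2⟩, ⟨u1', u2'⟩, ⟨v1', v2'⟩, D, D', hQ, hne⟩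
  obtain ⟨hr, hs, hd, q1, q2, q3, q4, q5, q6⟩ := hQ
  have heq := D.eq
  have hpu := D.pu
  have hpv := D.pv
  have hpu' := D'.pu
  have hpv' := D'.pv
  have hu := D.hu
  have hv := D.hv
  have hu' := D'.hu
  have hv' := D'.hv
  simp only [br] at q1 q3 q4 q5 q6 hpu hpv hpu' hpv' hu hv hu' hv' hne
  simp only [T, br, Prod.mk.injEq] at heq
  obtain ⟨heq1, heq2⟩ := heq
  have hd2 : 2 ≤ d := by
    by_contra hlt
    have hd1 : d = 1 := by omega
    subst hd1
    nlinarith [mul_pos hr hs]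
  have hcd : (d - r * s) * d = r ^ 2 + s ^ 2 := by linear_combination -q2
  have hc : 0 < d - r * s := by
    by_contra hlt
    push Not at hlt
    have h1 : (d - r * s) * d ≤ 0 := mul_nonpos_of_nonpos_of_nonneg hlt hd.le
    have h2 : 0 < r ^ 2 := by positivity
    have h3 : 0 < s ^ 2 := by positivity
    linarith
  have hnode : Node r s (d - r * s) := by
    rw [hT]
    refine ⟨hr.le, hs.le, hc, ?_⟩
    linear_combination -hcd
  -- the second basis vector
  obtain ⟨α, β, hαβ⟩ := hpu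
  obtain ⟨p0, hp0⟩ : ∃ p0, p0 = v1 * α + v2 * β := ⟨_, rfl⟩
  obtain ⟨k, hk⟩ : ∃ k, k = p0 / d := ⟨_, rfl⟩
  obtain ⟨e1, he1⟩ : ∃ e1, e1 = -β + k * u1 := ⟨_, rfl⟩
  obtain ⟨e2, he2⟩ : ∃ e2, e2 = α + k * u2 := ⟨_, rfl⟩
  have hue : u1 * e2 - u2 * e1 = 1 := by
    rw [he1, he2]
    linear_combination hαβ
  obtain ⟨p, hp⟩ : ∃ p, p = v1 * e2 - v2 * e1 := ⟨_, rfl⟩
  have hpp : p = p0 % d := by
    have h1 := Int.emod_add_mul_ediv p0 d
    rw [hp, he1, he2]
    rw [← hk] at h1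
    linear_combination -h1 - hp0 - k * q1
  have hp_nonneg : 0 ≤ p := by
    rw [hpp]
    exact Int.emod_nonneg _ (by omega)
  have hp_lt : p < d := by
    rw [hpp]
    exact Int.emod_lt_of_pos _ hd
  have hv1 : v1 = p * u1 + d * e1 := by
    rw [hp]
    linear_combination -v1 * hue + e1 * q1
  have hv2 : v2 = p * u2 + d * e2 := by
    rw [hp]
    linear_combination -v2 * hue + e2 * q1
  have hpd : IsCoprime p d := by
    obtain ⟨A, B, hAB⟩ := hpv
    refine ⟨A * u1 + B * u2, A * e1 + B * e2, ?_⟩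
    rw [hv1, hv2] at hAB
    linear_combination hAB
  have hp_pos : 0 < p := by
    rcases hp_nonneg.lt_or_eq with h | h
    · exact h
    · exfalso
      rw [← h] at hpd
      have h1 : IsUnit d := isCoprime_zero_left.1 hpd
      rcases Int.isUnit_iff.1 h1 with h2 | h2 <;> omega
  -- the vectors `v'` and `u'`
  have hbv : u1 * v2' - u2 * v1' = r := by
    apply mul_left_cancel₀ hd.ne'
    linear_combination u1 * q4 - u2 * q3 + r * q1
  have hbu : u1 * u2' - u2 * u1' = s := by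
    apply mul_left_cancel₀ hd.ne'
    linear_combination u1 * q6 - u2 * q5 + s * q1
  obtain ⟨q, hq⟩ : ∃ q, q = v1' * e2 - v2' * e1 := ⟨_, rfl⟩
  obtain ⟨t, ht⟩ : ∃ t, t = u1' * e2 - u2' * e1 - s := ⟨_, rfl⟩
  have hv1' : v1' = q * u1 + r * e1 := by
    rw [hq]
    linear_combination -v1' * hue + e1 * hbv
  have hv2' : v2' = q * u2 + r * e2 := by
    rw [hq]
    linear_combination -v2' * hue + e2 * hbv
  have hu1' : u1' = (t + s) * u1 + s * e1 := by
    rw [ht]
    linear_combination -u1' * hue + e1 * hbu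
  have hu2' : u2' = (t + s) * u2 + s * e2 := by
    rw [ht]
    linear_combination -u2' * hue + e2 * hbu
  have hqr : IsCoprime q r := by
    obtain ⟨A, B, hAB⟩ := hpv'
    refine ⟨A * u1 + B * u2, A * e1 + B * e2, ?_⟩
    rw [hv1', hv2'] at hAB
    linear_combination hAB
  have hts : IsCoprime t s := by
    obtain ⟨A, B, hAB⟩ := hpu'
    refine ⟨A * u1 + B * u2, A * e1 + B * e2 + (A * u1 + B * u2), ?_⟩
    rw [hu1', hu2'] at hAB
    linear_combination hAB
  have hdq : r * p - s = d * q := by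
    rw [hp, hq]
    linear_combination -e2 * q3 + e1 * q4 + s * hue
  have hdt : s * p + r = d * t := by
    rw [hp, ht]
    linear_combination -e2 * q5 + e1 * q6 + (-r - d * s) * hue
  refine ⟨r, s, d - r * s, p, q, t, e2, u2, e2 - e1, u1 - u2, d, v2, hnode, hr, hs, by ring,
    hp_pos, hp_lt, hpd, hdq, hdt, hqr, hts, hu, ?_, ?_, ?_, ?_, ?_, ?_⟩
  · have : r * e2 + q * u2 = v2' := by rw [hv2']; ring
    rw [this]
    exact hv'
  · linear_combination hue
  · rw [hv2]; ring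
  · linear_combination -heq2 + v2 * u2 * q1
  · refine ⟨1, ?_⟩
    have e5 : d * (e2 - e1) - p * (u1 - u2) = v2 - v1 := by
      linear_combination hv1 - hv2
    rw [e5]
    linear_combination heq2 - heq1 + (u1 * v2 - u2 * v2) * q1
  · rintro ⟨h1, h2⟩
    apply hne
    have e6 : v2' = u2 := by
      apply mul_left_cancel₀ hd.ne'
      linear_combination q4 + h1
    refine ⟨?_, e6, h2⟩
    apply mul_left_cancel₀ (mul_pos hr hd).ne'
    linear_combination r * q6 + (s - d) * h1 + u2 * q2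

end Pool.Agent.T6.H32.LS
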