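import Mathlib
import Pool.Agent.T6.H32.LS.Basic

/-! Module PARB: from the parameters to two decompositions. -/

set_option autoImplicit false

namespace Pool.Agent.T6.H32.LS

theorem parb (hT : TREEStm) (hB : ALBStm) : ∀ n a : ℤ, 0 < a → a < n → Param n a →
    ∃ (r s d : ℤ) (u v u' v' : ℤ × ℤ), Dec n a u v ∧ Dec n a u' v' ∧ Quad r s d u v u' v' ∧
      ¬ (u'.2 = v.2 ∧ v'.2 = u.2 ∧ n ∣ a ^ 2 - 1) := by
  rintro n a ha han ⟨r, s, c, p, q, t, x, y, z, w, d, e, hnode, hr, hs, hd, hp, hpd, hcop, hq, ht,
    hqr, hts, hy, hrx, hxw, he, hn, ⟨m, hm⟩, hne⟩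
  obtain ⟨-, -, hc, hconic⟩ := (hT r s c).1 hnode
  have hd0 : 0 < d := by
    rw [hd]
    have := mul_pos hr hs
    linarith
  have hcon : r ^ 2 + s ^ 2 + d * r * s = d ^ 2 := by
    rw [hd]
    linear_combination hconic
  -- adjust `z` and `w`
  obtain ⟨z', hz'⟩ : ∃ z', z' = z + (1 - m) * x := ⟨_, rfl⟩
  obtain ⟨w', hw'⟩ : ∃ w', w' = w - (1 - m) * y := ⟨_, rfl⟩
  have h1 : x * w' + y * z' = 1 := by
    rw [hz', hw']
    linear_combination hxw
  have h2 : a + 1 + e * (d * z' - p * w') - (y + d * e) * w' = n := by
    rw [hz', hw']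
    linear_combination hm - (1 - m) * hn - (1 - m) * e * he
  have k1 : IsCoprime (w' + y) y := ⟨x, z' - x, by linear_combination h1⟩
  have kc : ∀ P Q : ℤ, IsCoprime P Q →
      IsCoprime (P * (w' + y) + Q * (x - z')) (P * y + Q * x) := by
    rintro P Q ⟨A, B, hAB⟩
    refine ⟨A * x - B * y, -A * (x - z') + B * (w' + y), ?_⟩
    linear_combination (A * P + B * Q) * h1 + hAB
  have hre : r * e = d * (r * x + q * y) + s * y := by
    rw [he]
    linear_combination y * hq
  have he0 : 0 < e := by
    have h3 : 0 < r * e := by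
      rw [hre]
      have := mul_pos hd0 hrx
      have := mul_pos hs hy
      linarith
    exact (mul_pos_iff_of_pos_left hr).1 h3
  have hu2 : 0 < (t + s) * y + s * x := by
    have h3 : d * ((t + s) * y + s * x) = s * e + (r + d * s) * y := by
      rw [he]
      linear_combination -y * ht
    have h4 : 0 < d * ((t + s) * y + s * x) := by
      rw [h3]
      have := mul_pos hs he0
      have := mul_pos hr hy
      have := mul_pos (mul_pos hd0 hs) hy
      nlinarith
    exact (mul_pos_iff_of_pos_left hd0).1 h4
  have hv2 : 0 < q * y + r * x := by linarith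
  have hts' : IsCoprime (t + s) s := by
    obtain ⟨A, B, hAB⟩ := hts
    exact ⟨A, B - A, by linear_combination hAB⟩
  have D : Dec n a (w' + y, y) (p * (w' + y) + d * (x - z'), p * y + d * x) := by
    refine ⟨k1, kc p d hcop, hy, ?_, ?_, ?_⟩
    · change 0 < p * y + d * x
      have : p * y + d * x = e := by rw [he]; ring
      rw [this]
      exact he0
    · have : br (w' + y, y) (p * (w' + y) + d * (x - z'), p * y + d * x) = d := by
        simp only [br]
        linear_combination d * h1
      rw [this]
      exact hd0.le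
    · have e1 : p * y + d * x = e := by rw [he]; ring
      have e2 : (w' + y) * e - y * (p * (w' + y) + d * (x - z')) = d := by
        rw [he]
        linear_combination d * h1
      simp only [T, br, Prod.mk.injEq]
      rw [e1]
      constructor
      · linear_combination e * (w' + y) * e2 + e * e1 - hn - h2
      · linear_combination e * y * e2 - hn
  have Q : Quad r s d (w' + y, y) (p * (w' + y) + d * (x - z'), p * y + d * x)
      ((t + s) * (w' + y) + s * (x - z'), (t + s) * y + s * x)
      (q * (w' + y) + r * (x - z'), q * y + r * x) := by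
    refine ⟨hr, hs, hd0, ?_, hcon, ?_, ?_, ?_, ?_⟩
    · simp only [br]
      linear_combination d * h1
    · linear_combination -(w' + y) * hq
    · linear_combination -y * hq
    · linear_combination -(w' + y) * ht
    · linear_combination -y * ht
  refine ⟨r, s, d, _, _, _, _, D, hB n a r s d _ _ _ _ D Q (kc _ _ hts') (kc q r hqr) hu2 hv2, Q,
    ?_⟩
  rintro ⟨-, g2, g3⟩
  apply hne
  refine ⟨?_, g3⟩
  have g4 : q * y + r * x = y := g2
  rw [hre]
  linear_combination d * g4

end Pool.Agent.T6.H32.LS
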