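import Pool.Agent.T6.H32.LS.Basic
import Pool.Agent.T6.H32.LS.EXB

/-! Module REV. -/

set_option autoImplicit false

namespace Pool.Agent.T6.H32.LS

namespace ModREV

open ModEXB

/-- running backwards -/
theorem run_reverse (l : List ℤ) (x y : ℤ × ℤ) :
    run l.reverse (run l x y).2 (run l x y).1 = (y, x) := by
  induction l generalizing x y with
  | nil => rfl
  | cons c l ih =>
    rw [List.reverse_cons, run_append, run_cons c l, ih, run_cons, run_nil]
    simp

/-- a linear map -/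
def L (α β γ δ : ℤ) (p : ℤ × ℤ) : ℤ × ℤ := (α * p.1 + β * p.2, γ * p.1 + δ * p.2)

theorem run_L (α β γ δ : ℤ) (l : List ℤ) (x y : ℤ × ℤ) :
    run l (L α β γ δ x) (L α β γ δ y) =
      (L α β γ δ (run l x y).1, L α β γ δ (run l x y).2) := by
  induction l generalizing x y with
  | nil => rfl
  | cons c l ih =>
    rw [run_cons, run_cons, ← ih]
    congr 1
    simp only [L, Prod.mk.injEq]
    constructor <;> ring

theorem run_snoc (l : List ℤ) (c : ℤ) (x y : ℤ × ℤ) :
    (run (l ++ [c]) x y).1 = (run l x y).2 := by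
  rw [run_append, run_cons, run_nil]

theorem chain_reverse (n a : ℤ) (ha : 0 < a) (han : a < n) (hd : n ∣ a ^ 2 - 1) (b : List ℤ)
    (hb0 : b ≠ []) (h : VChain n a b) : VChain n a b.reverse := by
  obtain ⟨m, hm⟩ := hd
  obtain ⟨h1, h2⟩ := h
  have h1' : ∀ x ∈ b.reverse, 2 ≤ x := fun x hx => h1 x (List.mem_reverse.1 hx)
  refine ⟨h1', ?_⟩
  have hr := run_reverse b x0 x1
  have hbr := br_run b x0 x1
  rw [h2] at hr hbr
  set w := (run b x0 x1).1 with hw
  have hz : L a (-m) n (-a) (a, n) = x0 := by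
    simp only [L, x0, Prod.mk.injEq]
    constructor
    · linear_combination hm
    · ring
  have hx : L a (-m) n (-a) x0 = (a, n) := by
    simp [L]
  have hL := run_L a (-m) n (-a) b.reverse (a, n) w
  rw [hr, hz, hx] at hL
  have hdet : br x0 (L a (-m) n (-a) w) = 1 := by
    simp only [br, L] at hbr ⊢
    linear_combination hbr
  have hw1 : L a (-m) n (-a) w = x1 :=
    wa_eq n a ha han b.reverse _ hdet h1' (by simpa using hb0) (by rw [hL])
  rw [hw1] at hL
  rw [hL]

/-- the key formula -/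
theorem key (k : List ℤ) (hk : (run k x0 x1).2 = (-1, 0)) :
    ∃ m : ℤ, (run k.reverse x0 x1).2 = (-1, 0) ∧
      ∀ (p : List ℤ) (c : ℤ) (s : List ℤ), k = p ++ c :: s →
        (run s.reverse x0 x1).2 = L (-1) (m + 1) 0 1 (run p x0 x1).2 := by
  have hbr := br_run k x0 x1
  rw [hk] at hbr
  set w := (run k x0 x1).1 with hw
  have hw2 : w.2 = 1 := by
    simp only [br] at hbr
    linarith
  have hz : L (-1) (w.1 + 1) 0 1 (-1, 0) = x0 := by simp [L]
  have hx : L (-1) (w.1 + 1) 0 1 w = x1 := by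
    simp only [L, x1, Prod.mk.injEq]
    rw [hw2]
    constructor <;> ring
  refine ⟨w.1, ?_, ?_⟩
  · have hr := run_reverse k x0 x1
    rw [hk, ← hw] at hr
    have hL := run_L (-1) (w.1 + 1) 0 1 k.reverse (-1, 0) w
    rw [hr, hz, hx] at hL
    rw [hL]
    simp [L]
  · intro p c s hps
    have e1 : k = (p ++ [c]) ++ s := by rw [hps]; simp
    have hr := run_reverse s (run (p ++ [c]) x0 x1).1 (run (p ++ [c]) x0 x1).2
    rw [← run_append, ← e1, hk, ← hw] at hr
    have hL := run_L (-1) (w.1 + 1) 0 1 s.reverse (-1, 0) w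
    rw [hr, hz, hx] at hL
    rw [hL, run_snoc]

theorem zero_reverse (k : List ℤ) (h : VZero k) : VZero k.reverse := by
  obtain ⟨h0, h1, h2⟩ := h
  obtain ⟨m, hm, hp⟩ := key k h1
  refine ⟨by simpa using h0, hm, ?_⟩
  intro l₁ c l₂ hl
  have hk : k = l₂.reverse ++ c :: l₁.reverse := by
    have := congrArg List.reverse hl
    rw [List.reverse_reverse] at this
    rw [this]
    simp
  have := hp _ _ _ hk
  rw [List.reverse_reverse] at this
  rw [this]
  have := h2 _ _ _ hk
  simp only [L]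
  linarith

end ModREV

open ModREV

theorem rev (_hU : UNQStm) : REVStm := by
  intro n a k u v ha han hd hF
  obtain ⟨hz, hF⟩ := hF
  obtain ⟨m, hm, hp⟩ := key k hz.2.1
  rcases hF with ⟨l₁, l₂, l₃, c, d, hk, hb, hu, hv⟩ | ⟨l₁, l₂, c, hk, hb, hu, hv⟩
  · have hb' := chain_reverse n a ha han hd _ (by simp) hb
    have e1 : (l₁ ++ (c + 1) :: (l₂ ++ (d + 1) :: l₃)).reverse =
        l₃.reverse ++ (d + 1) :: (l₂.reverse ++ (c + 1) :: l₁.reverse) := by simp
    have e2 : k.reverse = l₃.reverse ++ d :: (l₂.reverse ++ c :: l₁.reverse) := by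
      rw [hk]; simp
    have hk2 : k = (l₁ ++ c :: l₂) ++ d :: l₃ := by rw [hk]; simp
    have p1 := hp _ _ _ hk
    have p2 := hp _ _ _ hk2
    have e3 : (l₂ ++ d :: l₃).reverse = l₃.reverse ++ d :: l₂.reverse := by simp
    rw [e3] at p1
    rw [e1] at hb'
    refine ⟨(run l₃.reverse x0 x1).2, (run (l₃.reverse ++ d :: l₂.reverse) x0 x1).2,
      ⟨zero_reverse k hz, Or.inl ⟨_, _, _, _, _, e2, hb', rfl, rfl⟩⟩, ?_, ?_⟩
    · rw [p2, hv]
      simp [L]
    · rw [p1, hu]
      simp [L]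
  · have hb' := chain_reverse n a ha han hd _ (by simp) hb
    have e1 : (l₁ ++ (c + 2) :: l₂).reverse = l₂.reverse ++ (c + 2) :: l₁.reverse := by simp
    have e2 : k.reverse = l₂.reverse ++ c :: l₁.reverse := by rw [hk]; simp
    have p1 := hp _ _ _ hk
    rw [e1] at hb'
    refine ⟨(run l₂.reverse x0 x1).2, (run l₂.reverse x0 x1).2,
      ⟨zero_reverse k hz, Or.inr ⟨_, _, _, e2, hb', rfl, rfl⟩⟩, ?_, ?_⟩
    · rw [p1, hu, hv]
      simp [L]
    · rw [p1, hu]
      simp [L]

end Pool.Agent.T6.H32.LS
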