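import Pool.Agent.T6.H32.LS.Basic

/-! Module SAM. -/

set_option autoImplicit false

namespace Pool.Agent.T6.H32.LS
namespace ModSAM

theorem br01 : br x0 x1 = 1 := by simp [br]

theorem filb {n a : ℤ} {k : List ℤ} {u v : ℤ × ℤ} (hF : Fil n a k u v) :
    ∃ b, VChain n a b ∧ b.length = k.length ∧ b.sum = k.sum + 2 ∧
      run b x0 x1 = (T u (T v (run k x0 x1).1), T u (T v (run k x0 x1).2)) := by
  obtain ⟨-, hF⟩ := hF
  rcases hF with ⟨l₁, l₂, l₃, c, d, hkeq, hV, hu, hv⟩ | ⟨l₁, l₂, c, hkeq, hV, hu, huv⟩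
  · refine ⟨_, hV, ?_, ?_, ?_⟩
    · rw [hkeq]; simp
    · rw [hkeq]; simp only [List.sum_append, List.sum_cons]; ring
    · rw [run_raise l₁ _ c x0 x1 br01]
      have e1 : l₁ ++ c :: (l₂ ++ (d + 1) :: l₃) = (l₁ ++ c :: l₂) ++ (d + 1) :: l₃ := by simp
      have e2 : l₁ ++ c :: (l₂ ++ d :: l₃) = (l₁ ++ c :: l₂) ++ d :: l₃ := by simp
      rw [e1, run_raise (l₁ ++ c :: l₂) l₃ d x0 x1 br01, ← e2, ← hkeq, hu, hv]
  · subst huv
    refine ⟨_, hV, ?_, ?_, ?_⟩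
    · rw [hkeq]; simp
    · rw [hkeq]; simp only [List.sum_append, List.sum_cons]; ring
    · rw [show c + 2 = (c + 1) + 1 by ring, run_raise l₁ _ (c + 1) x0 x1 br01,
        run_raise l₁ _ c x0 x1 br01, ← hkeq, hu]

end ModSAM

open ModSAM in
theorem sam (hU : UNQStm) (hS : SUMStm) : SAMStm := by
  intro n a k k' u v u' v' hF hF'
  obtain ⟨b, hb, hl, hs, hr⟩ := filb hF
  obtain ⟨b', hb', hl', hs', hr'⟩ := filb hF'
  have hbb : b = b' := hU b b' x0 x1 br01 hb.1 hb'.1 (hb.2.trans hb'.2.symm)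
  subst hbb
  have s1 := hS k hF.1
  have s2 := hS k' hF'.1
  have z1 := hF.1.2.1
  have z2 := hF'.1.2.1
  rw [← hl, show k.sum = b.sum - 2 by rw [hs]; ring] at s1
  rw [← hl', show k'.sum = b.sum - 2 by rw [hs']; ring] at s2
  rw [s1, z1] at hr
  rw [s2, z2, hr] at hr'
  generalize 1 - (3 * ((b.length : ℤ) - 1) - (b.sum - 2)) = K at hr'
  intro x
  simp only [T, br, Prod.mk.injEq] at hr' ⊢
  obtain ⟨⟨e1, e2⟩, e3, e4⟩ := hr'
  constructor
  · linear_combination x.2 * e1 + (K * x.2 - x.1) * e3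
  · linear_combination x.2 * e2 + (K * x.2 - x.1) * e4

end Pool.Agent.T6.H32.LS
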