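import Mathlib
import Pool.Agent.T6.H32.LS.Defs
import Pool.Agent.T6.H32.LS.Basic

/-! Module SUM (helper80) of project LS (helper32). -/

set_option autoImplicit false

namespace Pool.Agent.T6.H32.LS

namespace ModSUM

/-- positivity of all the vectors of a chain but the first and the last -/
def Pos : List ℤ → ℤ × ℤ → ℤ × ℤ → Prop
  | [], _, _ => True
  | c :: l, p, q => 0 < q.2 ∧ Pos l q (c * q.1 - p.1, c * q.2 - p.2)

theorem pos_of (k : List ℤ) : ∀ p q : ℤ × ℤ,
    (∀ (l₁ : List ℤ) (c : ℤ) (l₂ : List ℤ), k = l₁ ++ c :: l₂ → 0 < (run l₁ p q).2.2) →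
    Pos k p q := by
  induction k with
  | nil => intro p q _; trivial
  | cons c l ih =>
    intro p q h
    refine ⟨h [] c l rfl, ih _ _ ?_⟩
    intro l₁ c' l₂ hl
    have := h (c :: l₁) c' l₂ (by rw [hl]; rfl)
    rwa [run_cons] at this

theorem pos_append (l₁ l₂ : List ℤ) : ∀ p q : ℤ × ℤ,
    Pos (l₁ ++ l₂) p q ↔ Pos l₁ p q ∧ Pos l₂ (run l₁ p q).1 (run l₁ p q).2 := by
  induction l₁ with
  | nil => intro p q; simp [Pos, run]
  | cons c l ih =>
    intro p q
    rw [List.cons_append, run_cons]
    simp only [Pos]
    rw [ih, and_assoc]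

theorem inc (l : List ℤ) : ∀ p q : ℤ × ℤ, 0 ≤ p.2 → p.2 < q.2 → (∀ c ∈ l, 2 ≤ c) →
    0 < (run l p q).2.2 := by
  induction l with
  | nil => intro p q h1 h2 _; exact lt_of_le_of_lt h1 h2
  | cons c l ih =>
    intro p q h1 h2 h3
    rw [run_cons]
    have hc : 2 ≤ c := h3 c (by simp)
    refine ih _ _ (by linarith) ?_ (fun e he => h3 e (by simp [he]))
    change q.2 < c * q.2 - p.2
    have : 2 * q.2 ≤ c * q.2 := mul_le_mul_of_nonneg_right hc (by linarith)
    linarith

theorem ge1 (l : List ℤ) : ∀ p q : ℤ × ℤ, 0 < p.2 → Pos l p q → 0 ≤ (run l p q).2.2 →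
    ∀ c ∈ l, 1 ≤ c := by
  induction l with
  | nil => intro p q _ _ _ c hc; simp at hc
  | cons c l ih =>
    intro p q h1 h2 h3 e he
    rw [run_cons] at h3
    obtain ⟨hq, h2'⟩ := h2
    have hc : 1 ≤ c := by
      have hn : 0 ≤ c * q.2 - p.2 := by
        cases l with
        | nil => exact h3
        | cons c' l' => exact h2'.1.le
      by_contra hcon
      have : c ≤ 0 := by omega
      have : c * q.2 ≤ 0 := mul_nonpos_of_nonpos_of_nonneg this hq.le
      linarith
    rcases List.mem_cons.mp he with h | h
    · rw [h]; exact hc
    · exact ih _ _ hq h2' h3 e h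

theorem exists_one (k : List ℤ) (m : ℤ) (hlen : 2 ≤ k.length) (hp : Pos k (1, 0) (m, 1))
    (hz : (run k (1, 0) (m, 1)).2 = (-1, 0)) : ∃ l₁ l₂, k = l₁ ++ 1 :: l₂ := by
  have hge : ∀ c ∈ k, 1 ≤ c := by
    cases k with
    | nil => simp at hlen
    | cons c l =>
      rw [run_cons] at hz
      obtain ⟨hq, h2'⟩ := hp
      intro e he
      rcases List.mem_cons.mp he with h | h
      · rw [h]
        cases l with
        | nil => simp at hlen
        | cons c' l' =>
          have := h2'.1
          simp at this
          omega
      · refine ge1 l _ _ ?_ h2' ?_ e h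
        · exact hq
        · rw [hz]
  have h1 : (1 : ℤ) ∈ k := by
    by_contra hcon
    have h2 : ∀ c ∈ k, 2 ≤ c := by
      intro c hc
      have h3 := hge c hc
      have h4 : c ≠ 1 := fun h => hcon (h ▸ hc)
      omega
    have := inc k (1, 0) (m, 1) (le_refl 0) (by norm_num) h2
    rw [hz] at this
    simp at this
  exact List.append_of_mem h1

theorem main (N : ℕ) : ∀ (k : List ℤ) (m : ℤ), k.length = N + 1 → Pos k (1, 0) (m, 1) →
    (run k (1, 0) (m, 1)).2 = (-1, 0) →
    (run k (1, 0) (m, 1)).1 = (m - (3 * ((k.length : ℤ) - 1) - k.sum), 1) := by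
  induction N with
  | zero =>
    intro k m hlen hp hz
    obtain ⟨c, rfl⟩ : ∃ c, k = [c] := List.length_eq_one_iff.mp hlen
    simp only [run, Prod.mk.injEq] at hz
    simp only [run, List.length_singleton, List.sum_cons, List.sum_nil, Prod.mk.injEq]
    constructor
    · have : c = 0 := by linarith [hz.2]
      rw [this]; norm_num
    · trivial
  | succ N ih =>
    intro k m hlen hp hz
    obtain ⟨l₁, l₂, hk⟩ := exists_one k m (by omega) hp hz
    subst hk
    rcases List.eq_nil_or_concat l₁ with h1 | ⟨l, e, h1⟩
    · subst h1
      cases l₂ with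
      | nil => simp at hlen
      | cons f l' =>
        have hrun : run ([] ++ 1 :: f :: l') (1, 0) (m, 1) = run ((f - 1) :: l') (1, 0) (m - 1, 1) := by
          simp only [List.nil_append, run_cons]
          congr 1
          · simp
          · simp only [Prod.mk.injEq]
            constructor <;> ring
        have hlen' : ((f - 1) :: l').length = N + 1 := by
          simp at hlen ⊢; omega
        have hp' : Pos ((f - 1) :: l') (1, 0) (m - 1, 1) := by
          refine ⟨by norm_num, ?_⟩
          have h3 := hp.2.2
          convert h3 using 1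
          · simp
          · simp only [Prod.mk.injEq]
            constructor <;> ring
        have h4 := ih _ _ hlen' hp' (by rw [← hrun]; exact hz)
        rw [hrun, h4]
        simp only [Prod.mk.injEq, List.nil_append, List.length_cons, List.sum_cons, and_true]
        push_cast
        ring
    · subst h1
      cases l₂ with
      | nil =>
        have hlen' : (l ++ [e - 1]).length = N + 1 := by
          simp at hlen ⊢; omega
        have hp1 := (pos_append _ _ _ _).mp hp
        have hp2 : Pos (l ++ [e - 1]) (1, 0) (m, 1) := by
          rw [pos_append]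
          have h5 := (pos_append _ _ _ _).mp (by simpa using hp1.1 : Pos (l ++ [e]) (1, 0) (m, 1))
          exact ⟨h5.1, h5.2.1, trivial⟩
        have hz' : (run (l ++ [e - 1]) (1, 0) (m, 1)).2 = (-1, 0) := by
          have h6 := hz
          rw [List.concat_eq_append, List.append_assoc, run_append] at h6
          rw [run_append]
          simp only [List.cons_append, List.nil_append, run, Prod.mk.injEq] at h6 ⊢
          constructor
          · linarith [h6.1]
          · linarith [h6.2]
        have h4 := ih _ _ hlen' hp2 hz'
        have h7 := hz'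
        rw [List.concat_eq_append, List.append_assoc, run_append]
        rw [run_append] at h4 h7
        simp only [List.cons_append, List.nil_append, run, Prod.mk.injEq, List.length_append,
          List.length_cons, List.length_nil, List.sum_append, List.sum_cons, List.sum_nil] at h4 h7 ⊢
        have h8 : (run l (1, 0) (m, 1)).2.1 = m - (3 * (((l.length + (0 + 1) : ℕ) : ℤ) - 1) -
            (l.sum + (e - 1 + 0))) := by
          rw [h4]
        have h9 : (run l (1, 0) (m, 1)).2.2 = 1 := by rw [h4]
        push_cast at h8 ⊢
        constructor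
        · linarith [h7.1]
        · linarith [h7.2]
      | cons f l' =>
        have hrun : ∀ p q : ℤ × ℤ, run (e :: 1 :: f :: l') p q = run ((e - 1) :: (f - 1) :: l') p q := by
          intro p q
          simp only [run_cons]
          congr 1
          · simp only [Prod.mk.injEq]
            constructor <;> ring
          · simp only [Prod.mk.injEq]
            constructor <;> ring
        have hpos : ∀ p q : ℤ × ℤ, Pos (e :: 1 :: f :: l') p q → Pos ((e - 1) :: (f - 1) :: l') p q := by
          intro p q h
          obtain ⟨a1, a2, a3, a4⟩ := h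
          refine ⟨a1, ?_, ?_⟩
          · convert a3 using 1
            simp only; ring
          · convert a4 using 1
            · simp only [Prod.mk.injEq]
              constructor <;> ring
            · simp only [Prod.mk.injEq]
              constructor <;> ring
        have ek : l.concat e ++ 1 :: f :: l' = l ++ (e :: 1 :: f :: l') := by
          rw [List.concat_eq_append, List.append_assoc]; rfl
        rw [ek] at hp hz hlen ⊢
        have hlen' : (l ++ ((e - 1) :: (f - 1) :: l')).length = N + 1 := by
          simp at hlen ⊢; omega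
        have hp' : Pos (l ++ ((e - 1) :: (f - 1) :: l')) (1, 0) (m, 1) := by
          rw [pos_append] at hp ⊢
          exact ⟨hp.1, hpos _ _ hp.2⟩
        have hr : run (l ++ (e :: 1 :: f :: l')) (1, 0) (m, 1) =
            run (l ++ ((e - 1) :: (f - 1) :: l')) (1, 0) (m, 1) := by
          rw [run_append, run_append, hrun]
        have h4 := ih _ _ hlen' hp' (by rw [← hr]; exact hz)
        rw [hr, h4]
        simp only [Prod.mk.injEq, List.length_append, List.length_cons, List.sum_append,
          List.sum_cons, and_true]
        push_cast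
        ring

end ModSUM

theorem sum : SUMStm := by
  intro k hk
  obtain ⟨h1, h2, h3⟩ := hk
  have hp : ModSUM.Pos k (1, 0) (1, 1) := ModSUM.pos_of k _ _ h3
  obtain ⟨N, hN⟩ : ∃ N, k.length = N + 1 := by
    cases k with
    | nil => exact absurd rfl h1
    | cons c l => exact ⟨l.length, by simp⟩
  exact ModSUM.main N k 1 hN hp h2

end Pool.Agent.T6.H32.LS
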