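import Mathlib
import Pool.Agent.T6.H32.LS.Basic

/-! Module THR: no three decompositions. -/

set_option autoImplicit false

namespace Pool.Agent.T6.H32.LS

namespace ModTHR

theorem br_uu {r s d : ℤ} {u v u' v' : ℤ × ℤ} (h : Quad r s d u v u' v') : br u u' = s := by
  obtain ⟨hr, hs, hd, h1, h2, h3, h4, h5, h6⟩ := h
  simp only [br] at h1 ⊢
  apply mul_left_cancel₀ hd.ne'
  linear_combination u.1 * h6 - u.2 * h5 + s * h1

theorem br_uv' {r s d : ℤ} {u v u' v' : ℤ × ℤ} (h : Quad r s d u v u' v') : br u' v' = d := by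
  obtain ⟨hr, hs, hd, h1, h2, h3, h4, h5, h6⟩ := h
  have hd2 : d ^ 2 ≠ 0 := pow_ne_zero _ hd.ne'
  simp only [br] at h1 ⊢
  apply mul_left_cancel₀ hd2
  linear_combination (d * u'.1) * h4 - (d * u'.2) * h3 + (r * v.2 - s * u.2) * h5 -
    (r * v.1 - s * u.1) * h6 + (s ^ 2 + r ^ 2 + d * r * s) * h1 + d * h2

theorem chain3 (hR : ARIStm) {r s d r' s' d' r₂ s₂ d₂ : ℤ} {u v u' v' u'' v'' : ℤ × ℤ}
    (h : Quad r s d u v u' v') (h' : Quad r' s' d' u' v' u'' v'')
    (h2 : Quad r₂ s₂ d₂ u v u'' v'') : False := by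
  have hd' : d' = d := by
    rw [← br_uv' h]
    exact h'.2.2.2.1.symm
  have hd2 : d₂ = d := h2.2.2.2.1.symm.trans h.2.2.2.1
  subst hd'
  subst hd2
  obtain ⟨hr, hs, hd, a1, a2, a3, a4, a5, a6⟩ := h
  obtain ⟨hr', hs', -, b1, b2, b3, b4, b5, b6⟩ := h'
  obtain ⟨hr2, hs2, -, c1, c2, c3, c4, c5, c6⟩ := h2
  simp only [br] at a1
  have e1 : d₂ * (r₂ * v.1 - s₂ * u.1) = (r * r' - s * s') * v.1 -
      (r' * s + r * s' + d₂ * s * s') * u.1 := by
    linear_combination -d₂ * c3 + d₂ * b3 + r' * a3 - s' * a5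
  have e2 : d₂ * (r₂ * v.2 - s₂ * u.2) = (r * r' - s * s') * v.2 -
      (r' * s + r * s' + d₂ * s * s') * u.2 := by
    linear_combination -d₂ * c4 + d₂ * b4 + r' * a4 - s' * a6
  refine hR r s r' s' r₂ s₂ d₂ hr hs hr' hs' hr2 hs2 hd a2 b2 c2 ?_ ?_
  · apply mul_left_cancel₀ hd.ne'
    linear_combination u.1 * e2 - u.2 * e1 - (d₂ * r₂ - (r * r' - s * s')) * a1
  · apply mul_left_cancel₀ hd.ne'
    linear_combination v.1 * e2 - v.2 * e1 -
      (d₂ * s₂ - (d₂ * s * s' + r * s' + r' * s)) * a1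

theorem cyc3 {r s d r' s' d' r₂ s₂ d₂ : ℤ} {u v u' v' u'' v'' : ℤ × ℤ}
    (h : Quad r s d u v u' v') (h' : Quad r' s' d' u' v' u'' v'')
    (h2 : Quad r₂ s₂ d₂ u'' v'' u v) (hu : 0 < u.2) (hu' : 0 < u'.2) (hu'' : 0 < u''.2) :
    False := by
  have k1 : 0 < br u u' := by rw [br_uu h]; exact h.2.1
  have k2 : 0 < br u' u'' := by rw [br_uu h']; exact h'.2.1
  have k3 : 0 < br u'' u := by rw [br_uu h2]; exact h2.2.1
  have hp : u.2 * br u' u'' + u'.2 * br u'' u + u''.2 * br u u' = 0 := by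
    simp only [br]; ring
  have := mul_pos hu k2
  have := mul_pos hu' k3
  have := mul_pos hu'' k1
  linarith

end ModTHR

open ModTHR in
theorem thr (hA : ALGStm) (hR : ARIStm) : THRStm := by
  intro n a u v u' v' u'' v'' D D' D'' S S'
  have S2 : SameM u' v' u'' v'' := fun x => (S x).symm.trans (S' x)
  rcases hA n a u v u' v' D D' S with h1 | h1 | h1
  · exact Or.inl h1
  all_goals
    rcases hA n a u v u'' v'' D D'' S' with h2 | h2 | h2
    · exact Or.inr (Or.inl h2)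
    all_goals
      rcases hA n a u' v' u'' v'' D' D'' S2 with h3 | h3 | h3
      · exact Or.inr (Or.inr h3)
      all_goals
        exfalso
        obtain ⟨r, s, d, h1⟩ := h1
        obtain ⟨r', s', d', h2⟩ := h2
        obtain ⟨r₂, s₂, d₂, h3⟩ := h3
        first
          | exact chain3 hR h1 h3 h2
          | exact chain3 hR h1 h2 h3
          | exact chain3 hR h2 h3 h1
          | exact chain3 hR h2 h1 h3
          | exact chain3 hR h3 h1 h2
          | exact chain3 hR h3 h2 h1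
          | exact cyc3 h1 h3 h2 D.hu D'.hu D''.hu
          | exact cyc3 h2 h3 h1 D.hu D''.hu D'.hu

end Pool.Agent.T6.H32.LS
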