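import Pool.Agent.T6.H32.LS.Basic

/-! Module UNQ (helper24): uniqueness of Hirzebruch-Jung chains. -/

set_option autoImplicit false

namespace Pool.Agent.T6.H32.LS

namespace ModUNQ

theorem bnd (l : List ℤ) : ∀ x y : ℤ × ℤ, br x y = 1 → (∀ c ∈ l, 2 ≤ c) →
    0 ≤ br y (run l x y).2 ∧ br y (run l x y).2 < br x (run l x y).2 ∧
      (l ≠ [] → 0 < br y (run l x y).2) := by
  induction l with
  | nil =>
    intro x y h _
    rw [run_nil]
    have h1 : br y y = 0 := by simp only [br]; ring
    show 0 ≤ br y y ∧ br y y < br x y ∧ _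
    rw [h1, h]
    exact ⟨le_rfl, one_pos, fun h => absurd rfl h⟩
  | cons c m ih =>
    intro x y h hc
    rw [run_cons]
    obtain ⟨w, hw⟩ : ∃ w : ℤ × ℤ, w = (c * y.1 - x.1, c * y.2 - x.2) := ⟨_, rfl⟩
    rw [← hw]
    have h1 : br y w = 1 := by
      rw [hw, ← h]
      simp only [br]
      ring
    obtain ⟨a1, a2, _⟩ := ih y w h1 (fun d hd => hc d (List.mem_cons_of_mem _ hd))
    obtain ⟨z, hz⟩ : ∃ z : ℤ × ℤ, z = (run m y w).2 := ⟨_, rfl⟩
    rw [← hz] at a1 a2 ⊢
    have h2 : br x z = c * br y z - br w z := by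
      rw [hw]
      simp only [br]
      ring
    have hc2 : 2 ≤ c := hc c List.mem_cons_self
    have h3 : 0 < br y z := lt_of_le_of_lt a1 a2
    refine ⟨h3.le, ?_, fun _ => h3⟩
    rw [h2]
    nlinarith

end ModUNQ

theorem unq : UNQStm := by
  intro b
  induction b with
  | nil =>
    intro b' x y h _ hb' heq
    by_contra hne
    have h1 := (ModUNQ.bnd b' x y h hb').2.2 (fun h => hne h.symm)
    rw [← heq, run_nil] at h1
    have h2 : br y y = 0 := by simp only [br]; ring
    have h3 : 0 < br y y := h1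
    omega
  | cons c m ih =>
    intro b' x y h hb hb' heq
    cases b' with
    | nil =>
      have h1 := (ModUNQ.bnd (c :: m) x y h hb).2.2 (List.cons_ne_nil _ _)
      rw [heq, run_nil] at h1
      have h2 : br y y = 0 := by simp only [br]; ring
      have h3 : 0 < br y y := h1
      omega
    | cons c' m' =>
      rw [run_cons, run_cons] at heq
      have key : ∀ (d : ℤ) (l : List ℤ), (∀ e ∈ d :: l, 2 ≤ e) → ∀ z : ℤ × ℤ,
          (run l y (d * y.1 - x.1, d * y.2 - x.2)).2 = z →
          ∃ q1 : ℤ, 0 ≤ q1 ∧ q1 < br y z ∧ br x z = d * br y z - q1 := by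
        intro d l hl z hz
        obtain ⟨w, hw⟩ : ∃ w : ℤ × ℤ, w = (d * y.1 - x.1, d * y.2 - x.2) := ⟨_, rfl⟩
        rw [← hw] at hz
        have h1 : br y w = 1 := by
          rw [hw, ← h]
          simp only [br]
          ring
        obtain ⟨a1, a2, _⟩ := ModUNQ.bnd l y w h1 (fun e he => hl e (List.mem_cons_of_mem _ he))
        rw [hz] at a1 a2
        refine ⟨br w z, a1, a2, ?_⟩
        rw [hw]
        simp only [br]
        ring
      obtain ⟨q1, a1, a2, a3⟩ := key c m hb _ heq
      obtain ⟨q2, b1, b2, b3⟩ := key c' m' hb' _ rfl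
      have hcc : c = c' := by
        rw [a3] at b3
        obtain ⟨q, hq⟩ : ∃ q : ℤ, q = br y (run m' y (c' * y.1 - x.1, c' * y.2 - x.2)).2 :=
          ⟨_, rfl⟩
        rw [← hq] at a2 b2 b3
        have e : (c - c') * q = q1 - q2 := by linear_combination b3
        have hq0 : 0 < q := lt_of_le_of_lt a1 a2
        by_contra hne
        rcases lt_or_gt_of_ne hne with hlt | hgt
        · have : (c - c') * q ≤ (-1) * q := mul_le_mul_of_nonneg_right (by omega) hq0.le
          omega
        · have : 1 * q ≤ (c - c') * q := mul_le_mul_of_nonneg_right (by omega) hq0.le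
          omega
      subst hcc
      have h1 : br y (c * y.1 - x.1, c * y.2 - x.2) = 1 := by
        rw [← h]
        simp only [br]
        ring
      rw [ih m' y _ h1 (fun e he => hb e (List.mem_cons_of_mem _ he))
        (fun e he => hb' e (List.mem_cons_of_mem _ he)) heq]

end Pool.Agent.T6.H32.LS
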