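import Mathlib
import Pool.Agent.T6.H32.LS.Defs

/-! Module TREE (helper80) of project LS (helper32). -/

set_option autoImplicit false

namespace Pool.Agent.T6.H32.LS

namespace ModTREE

theorem fwd (r s c : ℤ) (h : Node r s c) :
    0 ≤ r ∧ 0 ≤ s ∧ 0 < c ∧ r ^ 2 + s ^ 2 = c * (c + r * s) := by
  induction h with
  | base t ht => exact ⟨le_refl 0, ht.le, ht, by ring⟩
  | swap r s c _ ih =>
    obtain ⟨h1, h2, h3, h4⟩ := ih
    exact ⟨h2, h1, h3, by linear_combination h4⟩
  | left r s c _ hlt ih =>
    obtain ⟨h1, h2, h3, h4⟩ := ih
    refine ⟨h1, by linarith, h3, ?_⟩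
    linear_combination h4
  | up r s c _ ih =>
    obtain ⟨h1, h2, h3, h4⟩ := ih
    have hrs : 0 ≤ r * s := mul_nonneg h1 h2
    refine ⟨h1, ?_, by linarith, ?_⟩
    · have : 0 ≤ r * (c + r * s) := mul_nonneg h1 (by linarith)
      linarith
    · linear_combination h4

theorem bwd (N : ℕ) : ∀ r s c : ℤ, 0 ≤ r → 0 ≤ s → 0 < c → r ^ 2 + s ^ 2 = c * (c + r * s) →
    (r + s).toNat ≤ N → Node r s c := by
  induction N using Nat.strong_induction_on with
  | _ N ih =>
    intro r s c hr hs hc hcon hN
    rcases eq_or_lt_of_le hr with hr0 | hr0
    · subst hr0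
      have h1 : (s - c) * (s + c) = 0 := by linear_combination hcon
      have h2 : s + c ≠ 0 := by
        intro h
        linarith
      have h3 : s = c := by
        rcases mul_eq_zero.mp h1 with h | h
        · linarith
        · exact absurd h h2
      subst h3
      exact Node.base s hc
    rcases eq_or_lt_of_le hs with hs0 | hs0
    · subst hs0
      have h1 : (r - c) * (r + c) = 0 := by linear_combination hcon
      have h2 : r + c ≠ 0 := by
        intro h
        linarith
      have h3 : r = c := by
        rcases mul_eq_zero.mp h1 with h | h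
        · linarith
        · exact absurd h h2
      subst h3
      exact Node.swap 0 r r (Node.base r hc)
    have key : ∀ r s : ℤ, 0 < r → 0 < s → r ≤ s → r ^ 2 + s ^ 2 = c * (c + r * s) →
        (r + s).toNat ≤ N → Node r s c := by
      intro r s hr hs hrs hcon hN
      have hNpos : 0 < N := by omega
      rcases lt_or_ge s (r * c) with hlt | hge
      · have h1 : s * (r * c - s) = r ^ 2 - c ^ 2 := by linear_combination (-1 : ℤ) * hcon
        have h2 : r * c - s < s := by
          by_contra hcon2
          push Not at hcon2
          have h3 : s * s ≤ s * (r * c - s) := by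
            apply mul_le_mul_of_nonneg_left _ hs.le
            linarith
          nlinarith
        have hn : Node r (r * c - s) c := by
          refine ih (r + (r * c - s)).toNat (by omega) r (r * c - s) c hr.le (by linarith) hc ?_ le_rfl
          linear_combination hcon
        have := Node.left r (r * c - s) c hn (by linarith)
        have he : r * c - (r * c - s) = s := by ring
        rwa [he] at this
      · have h1 : c * (c - r * (s - r * c)) = r ^ 2 + (s - r * c) ^ 2 := by
          linear_combination (-1 : ℤ) * hcon
        have h2 : 0 < c - r * (s - r * c) := by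
          have h3 : 0 < r ^ 2 + (s - r * c) ^ 2 := by positivity
          rw [← h1] at h3
          exact (pos_iff_pos_of_mul_pos h3).mp hc
        have hrc : 0 < r * c := mul_pos hr hc
        have hn : Node r (s - r * c) (c - r * (s - r * c)) := by
          refine ih (r + (s - r * c)).toNat (by omega) r (s - r * c) _ hr.le (by linarith) h2 ?_ le_rfl
          linear_combination (-1 : ℤ) * h1
        have h4 := Node.up r (s - r * c) (c - r * (s - r * c)) hn
        have he1 : c - r * (s - r * c) + r * (s - r * c) = c := by ring
        rw [he1] at h4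
        have he2 : s - r * c + r * c = s := by ring
        rwa [he2] at h4
    rcases le_total r s with hle | hle
    · exact key r s hr0 hs0 hle hcon hN
    · refine Node.swap s r c (key s r hs0 hr0 hle ?_ ?_)
      · linear_combination hcon
      · rwa [add_comm]

end ModTREE

theorem tree : TREEStm := fun r s c =>
  ⟨ModTREE.fwd r s c, fun h => ModTREE.bwd _ r s c h.1 h.2.1 h.2.2.1 h.2.2.2 le_rfl⟩

end Pool.Agent.T6.H32.LS
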